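import Pool.Agent.CA92.GVQ
import Pool.Agent.CA.Rotate

/-!
# From the certificate of GVQ to the packing: closure of the clique and the shift of the cut
-/

set_option autoImplicit false

namespace Pool.Agent.CA92

open Finset Pool.Agent.CA31 Pool.Agent.CA
open scoped Classical

/-- a clique gives a complete minor -/
theorem minor_of_clique {V : Type} {G : SimpleGraph V} {K : Finset V} (hK : Clq G K) {k : ℕ} (h : k ≤ K.card) :
    HasMinor G k := by
  have e := K.equivFin
  let x : Fin k → V := fun i => (e.symm ⟨i, lt_of_lt_of_le i.2 h⟩ : V)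
  have hx : ∀ i, x i ∈ K := fun i => (e.symm ⟨i, lt_of_lt_of_le i.2 h⟩).2
  have hinj : ∀ i j, x i = x j → i = j := by
    intro i j hij
    have h1 := e.symm.injective (Subtype.ext hij)
    have h2 := congrArg Fin.val h1
    exact Fin.ext h2
  refine ⟨fun i => {x i}, ?_, ?_, ?_⟩
  · intro i
    exact SimpleGraph.Connected.of_subsingleton
  · intro i j hij
    rw [Set.disjoint_singleton]
    exact fun h => hij (hinj i j h)
  · intro i j hij
    exact ⟨x i, rfl, x j, rfl, hK _ (hx i) _ (hx j) (fun h => hij (hinj i j h))⟩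

/-- statement of the packing theorem with one non-Helly clique `Q` -/
def ThreeClique : Prop :=
  ∀ (V : Type) [Fintype V] (M : Model V) (G : SimpleGraph V), M.IsModelOf G →
    ∀ (k u v N : ℕ), 0 < u → u < v → v ≤ N → (∀ z, M.o z < N ∧ M.c z < N) →
    (∀ x y, x ≤ y → y ≤ N → Far M x y → k ≤ (AU M x y).card) →
    ∀ Q : Finset V, (∀ x ∈ Q, ∀ y ∈ Q, x ≠ y → G.Adj x y) →
      (∀ z ∈ Q, M.Mem z 0 ∨ M.Mem z v) → (∀ z, M.Mem z 0 → M.Mem z v → z ∈ Q) →
      (∀ s ∈ Q, M.Mem s v → ¬ M.Mem s u → ¬ M.Mem s 0 → ∀ t, t ∉ Q → M.Mem t v → ¬ M.Mem t 0 → M.c t < M.c s) →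
      k ≤ (AU M 0 u).card → k ≤ (univ.filter (fun z => M.Mem z 0 ∨ z ∈ Q)).card →
      k ≤ (univ.filter (fun z => M.Mem z u ∨ z ∈ Q)).card →
      2 * k ≤ ∑ z, min 2 ((if M.Mem z 0 then 1 else 0) + (if M.Mem z u then 1 else 0) + (if z ∈ Q then 1 else 0)) →
      HasMinor G k

variable {V : Type} [Fintype V] {M : Model V}

/-- arcs whose window contains `u` and `v` but no job of `S` -/
noncomputable def B2 (M : Model V) (u v : ℕ) (S : Finset V) : Finset V :=
  M.A.filter (fun b => M.c b < u ∧ v ≤ M.o b ∧ ∀ s ∈ S, ¬ (M.c b < M.o s ∧ M.c s < M.o b))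

/-- the closure of `S` -/
noncomputable def clo (M : Model V) (u v : ℕ) (S : Finset V) : Finset V :=
  (M.H v).filter (fun h => ∀ b ∈ B2 M u v S, ¬ (M.c b < M.o h ∧ M.c h < M.o b))

/-- the clique of `S` -/
noncomputable def QQ (M : Model V) (S : Finset V) : Finset V :=
  S ∪ M.A.filter (fun b => ∀ s ∈ S, ¬ (M.c b < M.o s ∧ M.c s < M.o b))

theorem mem_NW {t : ℕ} {S : Finset V} {b : V} :
    b ∈ NW M t S ↔ M.IsA b ∧ M.c b < t ∧ ∃ s ∈ S, M.c b < M.o s ∧ M.c s < M.o b := by
  rw [NW, mem_filter, Model.mem_A]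

theorem mem_B2 {u v : ℕ} {S : Finset V} {b : V} :
    b ∈ B2 M u v S ↔ M.IsA b ∧ M.c b < u ∧ v ≤ M.o b ∧ ∀ s ∈ S, ¬ (M.c b < M.o s ∧ M.c s < M.o b) := by
  rw [B2, mem_filter, Model.mem_A]

theorem mem_clo {u v : ℕ} {S : Finset V} {h : V} :
    h ∈ clo M u v S ↔ h ∈ M.H v ∧ ∀ b ∈ B2 M u v S, ¬ (M.c b < M.o h ∧ M.c h < M.o b) := by
  rw [clo, mem_filter]

theorem mem_QQ {S : Finset V} {z : V} :
    z ∈ QQ M S ↔ z ∈ S ∨ (M.IsA z ∧ ∀ s ∈ S, ¬ (M.c z < M.o s ∧ M.c s < M.o z)) := by
  rw [QQ, mem_union, mem_filter, Model.mem_A]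

theorem subset_clo {u v : ℕ} {S : Finset V} (hS : S ⊆ M.H v) : S ⊆ clo M u v S := by
  intro s hs
  rw [mem_clo]
  refine ⟨hS hs, fun b hb => ?_⟩
  rw [mem_B2] at hb
  exact hb.2.2.2 s hs

theorem NW_clo {u v : ℕ} {S : Finset V} (hS : S ⊆ M.H v) : NW M u (clo M u v S) = NW M u S := by
  ext b
  rw [mem_NW, mem_NW]
  constructor
  · rintro ⟨h1, h2, s, hs, h3, h4⟩
    refine ⟨h1, h2, ?_⟩
    by_contra hc
    push Not at hc
    rw [mem_clo] at hs
    have h5 := Model.mem_H.1 hs.1
    refine hs.2 b ?_ ⟨h3, h4⟩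
    rw [mem_B2]
    refine ⟨h1, h2, by omega, fun s hs' h6 => ?_⟩
    have := hc s hs' h6.1
    omega
  · rintro ⟨h1, h2, s, hs, h3, h4⟩
    exact ⟨h1, h2, s, subset_clo hS hs, h3, h4⟩

/-- PACKING from a job set `S` through `v`, closure included -/
theorem closure_packing (hT : ThreeClique) {G : SimpleGraph V} (hG : M.IsModelOf G) {k u v N : ℕ}
    (h0u : 0 < u) (huv : u < v) (hvN : v ≤ N) (hN : ∀ z, M.o z < N ∧ M.c z < N)
    (hcut : ∀ x y, x ≤ y → y ≤ N → Far M x y → k ≤ (AU M x y).card)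
    {S : Finset V} (hS : S ⊆ M.H v) (h01 : k ≤ M.A.card + (M.H u).card) (h02 : k ≤ M.A.card + S.card)
    (h12 : k + (NW M u S).card ≤ M.A.card + (M.H u ∪ S).card)
    (hV : 2 * k + (NW M u S).card ≤ 2 * M.A.card + (M.H u).card + S.card) : HasMinor G k := by
  set S' := clo M u v S with hS'
  have hSS : S ⊆ S' := subset_clo hS
  have hNW : NW M u S' = NW M u S := NW_clo hS
  have hS'v : S' ⊆ M.H v := fun s hs => (mem_clo.1 hs).1
  have hAH : ∀ w, M.IsA w → ¬ M.IsH w := fun w h => M.not_isH.2 h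
  have hNWA : NW M u S' ⊆ M.A := by
    intro b hb; rw [mem_NW] at hb; exact Model.mem_A.2 hb.1
  refine hT V M G hG k u v N h0u huv hvN hN hcut (QQ M S') ?_ ?_ ?_ ?_ ?_ ?_ ?_ ?_
  · have key : ∀ x ∈ S', ∀ y, (M.IsA y ∧ ∀ s ∈ S', ¬ (M.c y < M.o s ∧ M.c s < M.o y)) → G.Adj y x := by
      intro x hx y hy
      rw [Model.adj_AH hG hy.1 (Model.mem_H.1 (hS'v hx)).1]
      have h1 := hy.2 x hx
      have h2 := M.o_ne_c x y
      have h3 := M.o_ne_c y x
      omega
    intro x hx y hy hxy
    rw [mem_QQ] at hx hy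
    rcases hx with hx | hx
    · rcases hy with hy | hy
      · exact Model.adj_of_mem hG hxy (Model.mem_of_mem_H (hS'v hx)) (Model.mem_of_mem_H (hS'v hy))
      · exact (key x hx y hy).symm
    · rcases hy with hy | hy
      · exact key y hy x hx
      · exact (Model.adj_AA hG hx.1 hy.1).2 hxy
  · intro z hz
    rw [mem_QQ] at hz
    rcases hz with hz | hz
    · exact Or.inr (Model.mem_of_mem_H (hS'v hz))
    · exact Or.inl ((M.mem_zero z).2 hz.1)
  · intro z hz1 hz2
    rw [M.mem_zero] at hz1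
    rw [M.mem_of_isA hz1] at hz2
    rw [mem_QQ]
    refine Or.inr ⟨hz1, fun s hs => ?_⟩
    have := Model.mem_H.1 (hS'v hs)
    omega
  · intro s hs hsv hsu hs0 t ht htv ht0
    rw [M.mem_zero, M.not_isA] at hs0 ht0
    rw [M.mem_of_isH hs0] at hsv hsu
    rw [M.mem_of_isH ht0] at htv
    have hsS : s ∈ S' := by
      rw [mem_QQ] at hs
      rcases hs with hs | hs
      · exact hs
      · exact absurd hs0 (hAH s hs.1)
    have htS : t ∉ S' := fun h => ht (mem_QQ.2 (Or.inl h))
    have h1 : ∃ b ∈ B2 M u v S, M.c b < M.o t ∧ M.c t < M.o b := by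
      by_contra hc
      push Not at hc
      exact htS (mem_clo.2 ⟨Model.mem_H.2 ⟨ht0, htv.1, htv.2⟩, fun b hb h => by have := hc b hb h.1; omega⟩)
    obtain ⟨b, hb, h2, h3⟩ := h1
    have h4 := (mem_clo.1 hsS).2 b hb
    rw [mem_B2] at hb
    have h5 := M.o_ne_c b s
    omega
  · refine h01.trans ?_
    rw [← card_union_of_disjoint]
    · apply card_le_card
      intro z hz
      rw [mem_AU]
      rw [mem_union, Model.mem_A] at hz
      rcases hz with hz | hz
      · exact Or.inl ((M.mem_zero z).2 hz)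
      · exact Or.inr (Model.mem_of_mem_H hz)
    · rw [Finset.disjoint_left]
      intro z hz hz'
      exact hAH z (Model.mem_A.1 hz) (Model.mem_H.1 hz').1
  · refine h02.trans ((Nat.add_le_add_left (card_le_card hSS) _).trans ?_)
    rw [← card_union_of_disjoint]
    · apply card_le_card
      intro z hz
      rw [mem_union, Model.mem_A] at hz
      rw [mem_filter]
      refine ⟨mem_univ _, ?_⟩
      rcases hz with hz | hz
      · exact Or.inl ((M.mem_zero z).2 hz)
      · exact Or.inr (mem_QQ.2 (Or.inl hz))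
    · rw [Finset.disjoint_left]
      intro z hz hz'
      exact hAH z (Model.mem_A.1 hz) (Model.mem_H.1 (hS'v hz')).1
  · have h1 : (M.A \ NW M u S').card + (NW M u S').card = M.A.card := by
      rw [card_sdiff_of_subset hNWA]
      have := card_le_card hNWA
      omega
    have h2 : (M.H u ∪ S).card ≤ (M.H u ∪ S').card := card_le_card (union_subset_union_right hSS)
    have h3 : ((M.A \ NW M u S') ∪ (M.H u ∪ S')).card ≤ (univ.filter (fun z => M.Mem z u ∨ z ∈ QQ M S')).card := by
      apply card_le_card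
      intro z hz
      rw [mem_filter]
      refine ⟨mem_univ _, ?_⟩
      rw [mem_union, mem_union, mem_sdiff, Model.mem_A, mem_NW] at hz
      rcases hz with ⟨hz1, hz2⟩ | hz | hz
      · by_cases hu : M.Mem z u
        · exact Or.inl hu
        · right
          rw [M.mem_of_isA hz1] at hu
          rw [mem_QQ]
          refine Or.inr ⟨hz1, fun s hs h => hz2 ⟨hz1, by omega, s, hs, h⟩⟩
      · exact Or.inl (Model.mem_of_mem_H hz)
      · exact Or.inr (mem_QQ.2 (Or.inl hz))
    rw [card_union_of_disjoint] at h3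
    · rw [hNW] at h1 h3
      omega
    · rw [Finset.disjoint_left]
      intro z hz hz'
      rw [mem_sdiff, Model.mem_A] at hz
      rw [mem_union] at hz'
      rcases hz' with hz' | hz'
      · exact hAH z hz.1 (Model.mem_H.1 hz').1
      · exact hAH z hz.1 (Model.mem_H.1 (hS'v hz')).1
  · have h1 : 2 * M.A.card + (M.H u).card + S'.card =
        ∑ z, (2 * (if z ∈ M.A then 1 else 0) + (if z ∈ M.H u then 1 else 0) + (if z ∈ S' then 1 else 0)) := by
      rw [Finset.sum_add_distrib, Finset.sum_add_distrib, ← Finset.mul_sum]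
      simp
    have h2 : (NW M u S').card = ∑ z, (if z ∈ NW M u S' then 1 else 0) := by simp
    have h3 : ∑ z, (2 * (if z ∈ M.A then 1 else 0) + (if z ∈ M.H u then 1 else 0) + (if z ∈ S' then 1 else 0)) ≤
        ∑ z, (min 2 ((if M.Mem z 0 then 1 else 0) + (if M.Mem z u then 1 else 0) + (if z ∈ QQ M S' then 1 else 0)) +
          (if z ∈ NW M u S' then 1 else 0)) := by
      apply Finset.sum_le_sum
      intro z _
      rcases M.isH_or_isA z with hz | hz
      · have e1 : z ∉ M.A := fun h => hAH z (Model.mem_A.1 h) hz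
        have e2 : z ∈ M.H u → M.Mem z u := Model.mem_of_mem_H
        have e3 : z ∈ S' → z ∈ QQ M S' := fun h => mem_QQ.2 (Or.inl h)
        rw [if_neg e1]
        by_cases h4 : z ∈ M.H u <;> by_cases h5 : z ∈ S' <;>
          simp [h4, h5, e2, e3] <;> split_ifs <;> simp_all
      · have e1 : z ∈ M.A := Model.mem_A.2 hz
        have e2 : z ∉ M.H u := fun h => hAH z hz (Model.mem_H.1 h).1
        have e3 : z ∉ S' := fun h => hAH z hz (Model.mem_H.1 (hS'v h)).1
        have e4 : M.Mem z 0 := (M.mem_zero z).2 hz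
        rw [if_pos e1, if_neg e2, if_neg e3, if_pos e4]
        by_cases h4 : M.Mem z u
        · rw [if_pos h4]; omega
        · rw [if_neg h4]
          by_cases h5 : z ∈ NW M u S'
          · rw [if_pos h5]; omega
          · have h6 : z ∈ QQ M S' := by
              rw [mem_QQ]
              rw [M.mem_of_isA hz] at h4
              refine Or.inr ⟨hz, fun s hs h => h5 (mem_NW.2 ⟨hz, by omega, s, hs, h⟩)⟩
            rw [if_pos h6]; omega
    rw [← h1, Finset.sum_add_distrib, ← h2, hNW] at h3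
    have h4 := card_le_card hSS
    omega

/-- the cut conditions pass to the rotated model -/
theorem rot_cut {N p k : ℕ} (hN : ∀ v, M.o v < N ∧ M.c v < N) (hp : p ≤ N)
    (hcut : ∀ x y, x ≤ y → y ≤ N → Far M x y → k ≤ (AU M x y).card) :
    ∀ x y, x ≤ y → y ≤ N → Far (rot M hN hp) x y → k ≤ (AU (rot M hN hp) x y).card := by
  intro x y hxy hy hf
  rw [rot_AU]
  rcases rot_far hN hp hxy hy hf with ⟨h4, h5, h6⟩ | ⟨h4, h5, h6⟩
  · exact hcut _ _ h4 h5 h6
  · rw [AU_comm]
    exact hcut _ _ h4 h5 h6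

/-- SHIFT of the cut: from the certificate for the last arc `c` to a `K_{k+1}` minor -/
theorem shift (hT : ThreeClique) {G : SimpleGraph V} (hG : M.IsModelOf G) {F : ℕ} {c : V} (hcH : M.IsH c)
    (ho : ∀ v, M.o v < M.c c) (hc : ∀ v, v ≠ c → M.c v < M.c c)
    (hcut : ∀ x y, x ≤ y → y ≤ M.c c + 1 → Far M x y → M.A.card + F + 1 ≤ (AU M x y).card)
    {t : ℕ} (ht : t ≤ M.o c) (htF : F < (M.H t).card) {S : Finset V} (hS : S ⊆ M.H (M.o c + 1)) (hSF : F < S.card)
    (hSt : (S.filter (fun h => h ∈ M.H t)).card ≤ F)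
    (hcert : 2 * F + (NW M t S).card < (M.H t).card + S.card) : HasMinor G (M.A.card + F + 1) := by
  have hN : ∀ v, M.o v < M.c c + 1 ∧ M.c v < M.c c + 1 := by
    intro v
    have h1 := ho v
    by_cases h : v = c
    · subst h; omega
    · have := hc v h; omega
  have hp : M.c c ≤ M.c c + 1 := Nat.le_succ _
  set M' := rot M hN hp with hM'
  have hoc := ho c
  -- events of M'
  have eo : ∀ v, M'.o v = M.o v + 1 := by
    intro v
    have h1 := ho v
    show rte (M.c c + 1) (M.c c) (M.o v) = _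
    unfold rte; split_ifs <;> omega
  have ecc : M'.c c = 0 := by
    show rte (M.c c + 1) (M.c c) (M.c c) = _
    unfold rte; split_ifs <;> omega
  have ec : ∀ v, v ≠ c → M'.c v = M.c v + 1 := by
    intro v hv
    have h1 := hc v hv
    show rte (M.c c + 1) (M.c c) (M.c v) = _
    unfold rte; split_ifs <;> omega
  have hcA' : M'.IsA c := by unfold Model.IsA; rw [ecc, eo]; omega
  have hH' : ∀ v, v ≠ c → (M'.IsH v ↔ M.IsH v) := by
    intro v hv; unfold Model.IsH; rw [eo, ec v hv]; omega
  have hA' : M'.A = insert c M.A := by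
    ext v
    rw [mem_insert, Model.mem_A, Model.mem_A]
    by_cases h : v = c
    · rw [h]; simp [hcA']
    · rw [← M'.not_isH, ← M.not_isH, hH' v h]; simp [h]
  have hcA : c ∉ M.A := fun h => (M.not_isA.2 hcH) (Model.mem_A.1 h)
  have hA'c : M'.A.card = M.A.card + 1 := by rw [hA', card_insert_of_notMem hcA]
  have hHs : ∀ j, M'.H (j + 1) = (M.H j).erase c := by
    intro j
    ext v
    rw [mem_erase, Model.mem_H, Model.mem_H]
    by_cases h : v = c
    · rw [h]
      simp only [ne_eq, not_true_eq_false, false_and, iff_false]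
      rintro ⟨h1, -⟩
      exact (M'.not_isH.2 hcA') h1
    · rw [hH' v h, eo, ec v h]
      constructor
      · rintro ⟨h1, h2, h3⟩; exact ⟨h, h1, by omega, by omega⟩
      · rintro ⟨-, h1, h2, h3⟩; exact ⟨h1, by omega, by omega⟩
  have hct : c ∉ M.H t := by
    rw [Model.mem_H]; omega
  have ht0 : 0 < t := by
    rcases Nat.eq_zero_or_pos t with h | h
    · have : M.H t = ∅ := by
        rw [Finset.eq_empty_iff_forall_notMem]
        intro v hv
        rw [Model.mem_H] at hv
        omega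
      rw [this] at htF
      simp at htF
    · exact h
  have hHt : M'.H (t + 1) = M.H t := by rw [hHs, erase_eq_of_notMem hct]
  -- the windows
  have hNW : NW M' (t + 1) (S.erase c) ⊆ NW M t S := by
    intro b hb
    rw [mem_NW] at hb
    rw [mem_NW]
    obtain ⟨h1, h2, s, hs, h3, h4⟩ := hb
    rw [mem_erase] at hs
    have hsH := Model.mem_H.1 (hS hs.2)
    rw [eo] at h3 h4
    rw [ec s hs.1] at h4
    by_cases h : b = c
    · rw [h] at h4
      omega
    · rw [ec b h] at h2 h3
      refine ⟨?_, by omega, s, hs.2, by omega, by omega⟩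
      rw [← M.not_isH, ← hH' b h, M'.not_isH]
      exact h1
  have hNWc := card_le_card hNW
  have hScard : S.card ≤ (S.erase c).card + 1 := by
    by_cases h : c ∈ S
    · rw [card_erase_of_mem h]; omega
    · rw [erase_eq_of_notMem h]; omega
  have hU : (M.H t).card + (S.erase c).card ≤ (M.H t ∪ S.erase c).card + F := by
    rw [← card_union_add_card_inter]
    have : (M.H t ∩ S.erase c).card ≤ F := by
      refine le_trans (card_le_card ?_) hSt
      intro v hv
      rw [mem_inter, mem_erase] at hv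
      exact mem_filter.2 ⟨hv.2.2, hv.1⟩
    omega
  refine closure_packing hT (rot_model hN hp hG) (u := t + 1) (v := M.o c + 2) (N := M.c c + 1) (by omega) (by omega)
    (by omega) (rot_bd M hN hp) (rot_cut hN hp hcut) (S := S.erase c) ?_ ?_ ?_ ?_ ?_
  · show S.erase c ⊆ M'.H (M.o c + 1 + 1)
    rw [hHs]
    exact erase_subset_erase _ hS
  · show _ ≤ M'.A.card + (M'.H (t + 1)).card
    rw [hA'c, hHt]; omega
  · show _ ≤ M'.A.card + (S.erase c).card
    rw [hA'c]; omega
  · show _ + (NW M' (t + 1) (S.erase c)).card ≤ M'.A.card + (M'.H (t + 1) ∪ S.erase c).card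
    rw [hA'c, hHt]; omega
  · show _ + (NW M' (t + 1) (S.erase c)).card ≤ 2 * M'.A.card + (M'.H (t + 1)).card + (S.erase c).card
    rw [hA'c, hHt]; omega

/-- the minor from criticality at the last arc -/
theorem hasMinor_of_last (hT : ThreeClique) {G : SimpleGraph V} (hG : M.IsModelOf G) {k : ℕ} {c : V} (hcH : M.IsH c)
    (ho : ∀ v, M.o v < M.c c) (hc : ∀ v, v ≠ c → M.c v < M.c c) (hlast : ∀ v, M.IsH v → M.o v ≤ M.o c)
    (hcut : ∀ x y, x ≤ y → y ≤ M.c c + 1 → Far M x y → k + 1 ≤ (AU M x y).card)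
    (hcol : ColOn G (univ.erase c) k) (hn : ¬ ColOn G univ k) : HasMinor G (k + 1) := by
  rcases Nat.lt_or_ge k M.A.card with hk | hk
  · refine minor_of_clique (K := M.A) ?_ hk
    intro u hu v hv huv
    exact (Model.adj_AA hG (Model.mem_A.1 hu) (Model.mem_A.1 hv)).2 huv
  · obtain ⟨F, rfl⟩ : ∃ F, k = M.A.card + F := ⟨k - M.A.card, by omega⟩
    rcases gvq_last hG hcH hlast hcol hn with ⟨S, hS, hSF, h1⟩ | ⟨t, ht, htF, S, hS, hSF, hSt, h1⟩
    · -- a large clique
      refine minor_of_clique (K := QQ M S) ?_ ?_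
      · have key : ∀ x ∈ S, ∀ y, (M.IsA y ∧ ∀ s ∈ S, ¬ (M.c y < M.o s ∧ M.c s < M.o y)) → G.Adj y x := by
          intro x hx y hy
          rw [Model.adj_AH hG hy.1 (Model.mem_H.1 (hS hx)).1]
          have h1 := hy.2 x hx
          have h2 := M.o_ne_c x y
          have h3 := M.o_ne_c y x
          omega
        intro x hx y hy hxy
        rw [mem_QQ] at hx hy
        rcases hx with hx | hx
        · rcases hy with hy | hy
          · exact Model.adj_of_mem hG hxy (Model.mem_of_mem_H (hS hx)) (Model.mem_of_mem_H (hS hy))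
          · exact (key x hx y hy).symm
        · rcases hy with hy | hy
          · exact key y hy x hx
          · exact (Model.adj_AA hG hx.1 hy.1).2 hxy
      · have h2 : (M.A \ NA M S).card + (NA M S).card = M.A.card := by
          have h3 : NA M S ⊆ M.A := filter_subset _ _
          rw [card_sdiff_of_subset h3]
          have := card_le_card h3
          omega
        have h3 : (S ∪ (M.A \ NA M S)).card ≤ (QQ M S).card := by
          apply card_le_card
          intro z hz
          rw [mem_union, mem_sdiff, NA, mem_filter] at hz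
          rw [mem_QQ]
          rcases hz with hz | ⟨hz1, hz2⟩
          · exact Or.inl hz
          · exact Or.inr ⟨Model.mem_A.1 hz1, fun s hs h => hz2 ⟨hz1, s, hs, h⟩⟩
        rw [card_union_of_disjoint] at h3
        · omega
        · rw [Finset.disjoint_left]
          intro z hz hz'
          rw [mem_sdiff, Model.mem_A] at hz'
          exact (M.not_isH.2 hz'.1) (Model.mem_H.1 (hS hz)).1
    · exact shift hT hG hcH ho hc hcut ht htF hS hSF hSt h1

end Pool.Agent.CA92
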