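import Mathlib
import Pool.Agent.CA.WordBL

/-!
# Bags from the word theorem (bridging lemma)

Coloured families of intervals on a line `[p, q]`: `D` = intervals containing the left end `p` (heads), `C` = intervals
containing the right end `q`, `O` = the others; the colour classes of the heads are *tracks*.
-/

set_option autoImplicit false

namespace Pool.Agent.CA92

open Finset Pool.Agent.CA
open scoped Classical

/-- a coloured family of intervals on a line -/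
structure Line (V : Type) where
  l : V → ℤ
  r : V → ℤ
  p : ℤ
  q : ℤ
  O : Set V
  D : Set V
  C : Set V
  φ : V → ℕ
  lr : ∀ v, v ∈ O ∨ v ∈ D ∨ v ∈ C → l v ≤ r v
  pl : ∀ v, v ∈ O ∨ v ∈ D ∨ v ∈ C → p ≤ l v
  rq : ∀ v, v ∈ O ∨ v ∈ D ∨ v ∈ C → r v ≤ q
  Dp : ∀ v, v ∈ D → l v = p
  Cq : ∀ v, v ∈ C → r v = q
  dist : ∀ u v, u ∈ O ∨ u ∈ D ∨ u ∈ C → v ∈ O ∨ v ∈ D ∨ v ∈ C → r u + 1 ≠ l v
  disj : ∀ u v, u ∈ O ∨ u ∈ D ∨ u ∈ C → v ∈ O ∨ v ∈ D ∨ v ∈ C → u ≠ v → φ u = φ v → r u < l v ∨ r v < l u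
  DC : ∀ u v, u ∈ D → v ∈ C → φ u ≠ φ v
  DO : ∀ v, v ∈ D → v ∉ O
  CO : ∀ v, v ∈ C → v ∉ O

namespace Line

variable {V : Type} (L : Line V)

/-- all intervals -/
def W : Set V := {v | v ∈ L.O ∨ v ∈ L.D ∨ v ∈ L.C}

/-- the mirror image -/
def mirror : Line V where
  l v := - L.r v
  r v := - L.l v
  p := - L.q
  q := - L.p
  O := L.O
  D := L.C
  C := L.D
  φ := L.φ
  lr := fun v h => by have := L.lr v (by tauto); omega
  pl := fun v h => by have := L.rq v (by tauto); omega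
  rq := fun v h => by have := L.pl v (by tauto); omega
  Dp := fun v h => by have := L.Cq v h; omega
  Cq := fun v h => by have := L.Dp v h; omega
  dist := fun u v hu hv => by have := L.dist v u (by tauto) (by tauto); omega
  disj := fun u v hu hv h1 h2 => by have := L.disj u v (by tauto) (by tauto) h1 h2; omega
  DC := fun u v hu hv h => L.DC v u hv hu h.symm
  DO := L.CO
  CO := L.DO

theorem mirror_W : L.mirror.W = L.W := by
  ext v; unfold W mirror; simp only [Set.mem_ofPred_eq]; tauto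

/-- `b` is the next interval after `a` in its colour class -/
def Gap (a b : V) : Prop :=
  a ∈ L.W ∧ b ∈ L.W ∧ L.φ a = L.φ b ∧ L.r a < L.l b ∧
    ∀ w ∈ L.W, L.φ w = L.φ a → ¬ (L.r a < L.l w ∧ L.r w < L.l b)

theorem mirror_gap {a b : V} : L.mirror.Gap b a ↔ L.Gap a b := by
  unfold Gap
  rw [mirror_W]
  show (b ∈ L.W ∧ a ∈ L.W ∧ L.φ b = L.φ a ∧ - L.l b < - L.r a ∧
    ∀ w ∈ L.W, L.φ w = L.φ b → ¬ (- L.l b < - L.r w ∧ - L.l w < - L.r a)) ↔ _
  constructor
  · rintro ⟨h1, h2, h3, h4, h5⟩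
    exact ⟨h2, h1, h3.symm, by omega, fun w hw h6 h7 => h5 w hw (by rw [h6, h3]) ⟨by omega, by omega⟩⟩
  · rintro ⟨h1, h2, h3, h4, h5⟩
    exact ⟨h2, h1, h3.symm, by omega, fun w hw h6 h7 => h5 w hw (by rw [h6, h3]) ⟨by omega, by omega⟩⟩

variable {L}

theorem gap_of_lt [Finite V] {a b : V} (ha : a ∈ L.W) (hb : b ∈ L.W) (hc : L.φ a = L.φ b) (h : L.r a < L.l b) :
    ∃ a', L.Gap a a' := by
  have := Fintype.ofFinite V
  obtain ⟨a', ha', hmin⟩ := Finset.exists_min_image (univ.filter (fun w => w ∈ L.W ∧ L.φ w = L.φ a ∧ L.r a < L.l w))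
    (fun w => L.l w) ⟨b, by simp [hb, hc, h]⟩
  simp only [mem_filter, mem_univ, true_and] at ha' hmin
  refine ⟨a', ha, ha'.1, ha'.2.1.symm, ha'.2.2, ?_⟩
  rintro w hw hwc ⟨h1, h2⟩
  have h3 := hmin w ⟨hw, hwc, h1⟩
  have h4 := L.lr w hw
  omega

theorem gap_before [Finite V] {a b : V} (ha : a ∈ L.W) (hb : b ∈ L.W) (hc : L.φ a = L.φ b) (h : L.r a < L.l b) :
    ∃ b', L.Gap b' b := by
  obtain ⟨b', hb'⟩ := gap_of_lt (L := L.mirror) (a := b) (b := a) (by rw [mirror_W]; exact hb)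
    (by rw [mirror_W]; exact ha) hc.symm (by show - L.l b < - L.r a; omega)
  exact ⟨b', L.mirror_gap.1 hb'⟩

theorem gap_unique_right {a b b' : V} (h : L.Gap a b) (h' : L.Gap a b') : b = b' := by
  obtain ⟨h1, h2, h3, h4, h5⟩ := h
  obtain ⟨h1', h2', h3', h4', h5'⟩ := h'
  by_contra hne
  have := L.lr b h2
  have := L.lr b' h2'
  rcases L.disj b b' h2 h2' hne (h3.symm.trans h3') with h6 | h6
  · exact h5' b h2 h3.symm ⟨h4, h6⟩
  · exact h5 b' h2' h3'.symm ⟨h4', h6⟩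

theorem gap_unique_left {a a' b : V} (h : L.Gap a b) (h' : L.Gap a' b) : a = a' :=
  gap_unique_right (L.mirror_gap.2 h) (L.mirror_gap.2 h')

/-- full coverage by two colours -/
def Cov (L : Line V) (i j : ℕ) : Prop :=
  ∀ t, L.p ≤ t → t ≤ L.q → ∃ v ∈ L.W, (L.φ v = i ∨ L.φ v = j) ∧ L.l v ≤ t ∧ t ≤ L.r v

theorem cov_mirror {i j : ℕ} (h : L.Cov i j) : L.mirror.Cov j i := by
  intro t h1 h2
  obtain ⟨v, hv, hc, h3, h4⟩ := h (-t) (by change - L.q ≤ t at h1; change t ≤ - L.p at h2; omega)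
    (by change - L.q ≤ t at h1; omega)
  refine ⟨v, by rw [mirror_W]; exact hv, hc.symm, ?_, ?_⟩
  · show - L.r v ≤ t; omega
  · show t ≤ - L.l v; omega

/-- the interval before the first `j`-gap after the `i`-gap `(a, a')` covers this gap -/
theorem helper_cover {i j : ℕ} (hcov : L.Cov i j) {a a' b' b : V}
    (hg : L.Gap a a') (hf : L.Gap b' b) (ha : L.φ a = i) (hb : L.φ b = j) (hlt : L.r a < L.l b)
    (hfirst : ∀ x' x, L.Gap x' x → L.φ x = j → L.r a < L.l x → L.l b ≤ L.l x) [Finite V] :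
    L.l b' ≤ L.r a ∧ L.l a' ≤ L.r b' := by
  obtain ⟨g1, g2, g3, g4, g5⟩ := hg
  obtain ⟨f1, f2, f3, f4, f5⟩ := hf
  have e1 := L.lr a g1
  have e2 := L.lr a' g2
  have e3 := L.lr b f2
  have e4 := L.lr b' f1
  have e5 := L.pl a g1
  have e6 := L.rq a' g2
  have d1 := L.dist a b g1 f2
  -- position r a + 1
  obtain ⟨v, hv, hvc, hv1, hv2⟩ := hcov (L.r a + 1) (by omega) (by omega)
  have d2 := L.dist a v g1 hv
  have hvj : L.φ v = j := by
    rcases hvc with h | h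
    · have hne : v ≠ a := by rintro rfl; omega
      rcases L.disj v a hv g1 hne (h.trans ha.symm) with h1 | h1 <;> omega
    · exact h
  have hvb : L.r v < L.l b := by
    have hne : v ≠ b := by rintro rfl; omega
    rcases L.disj v b hv f2 hne (hvj.trans hb.symm) with h1 | h1
    · exact h1
    · have := L.lr v hv; omega
  have hvb' : v = b' := by
    by_contra hne
    rcases L.disj v b' hv f1 hne (hvj.trans (hb.symm.trans f3.symm)) with h1 | h1
    · -- b' would be a later gap end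
      obtain ⟨x', hx'⟩ := gap_before hv f1 (hvj.trans (hb.symm.trans f3.symm)) h1
      have := hfirst x' b' hx' (f3.trans hb) (by omega)
      omega
    · exact f5 v hv (hvj.trans (hb.symm.trans f3.symm)) ⟨h1, hvb⟩
  subst hvb'
  refine ⟨by omega, ?_⟩
  by_contra hcon
  have d3 := L.dist v a' hv g2
  obtain ⟨w, hw, hwc, hw1, hw2⟩ := hcov (L.r v + 1) (by have := L.pl v hv; have := L.lr v hv; omega) (by omega)
  have d4 := L.dist v w hv hw
  have e7 := L.lr w hw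
  rcases hwc with h | h
  · have hne : w ≠ a := by rintro rfl; omega
    rcases L.disj w a hw g1 hne (h.trans ha.symm) with h1 | h1
    · omega
    · have hne' : w ≠ a' := by rintro rfl; omega
      rcases L.disj w a' hw g2 hne' (h.trans (ha.symm.trans g3)) with h2 | h2
      · exact g5 w hw (h.trans ha.symm) ⟨h1, h2⟩
      · omega
  · have hne : w ≠ v := by rintro rfl; omega
    rcases L.disj w v hw hv hne (h.trans hvj.symm) with h1 | h1 <;> omega

/-- if `a` is the last interval of its colour, the head of the other colour reaches it -/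
theorem tail_cover {i : ℕ} {c a : V} (hc : c ∈ L.C) (hcov : L.Cov i (L.φ c)) (ha : a ∈ L.W) (hai : L.φ a = i)
    (hic : i ≠ L.φ c) [Finite V] (hno : ∀ a', ¬ L.Gap a a') : L.l c ≤ L.r a := by
  by_contra hcon
  have hcW : c ∈ L.W := Or.inr (Or.inr hc)
  have d1 := L.dist a c ha hcW
  have e1 := L.lr c hcW
  have e2 := L.rq c hcW
  have e3 := L.pl a ha
  have e4 := L.lr a ha
  obtain ⟨w, hw, hwc, hw1, hw2⟩ := hcov (L.l c - 1) (by omega) (by omega)
  rcases hwc with h | h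
  · have hne : a ≠ w := by rintro rfl; omega
    rcases L.disj a w ha hw hne (hai.trans h.symm) with h1 | h1
    · obtain ⟨a', ha'⟩ := gap_of_lt ha hw (hai.trans h.symm) h1
      exact hno a' ha'
    · omega
  · have hne : w ≠ c := by rintro rfl; omega
    have d2 := L.dist w c hw hcW
    have e5 := L.rq w hw
    have e6 := L.Cq c hc
    have e7 := L.lr w hw
    rcases L.disj w c hw hcW hne h with h1 | h1 <;> omega

/-- one side: connectivity and reach of the bag of a head `h` -/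
theorem half [Finite V] {G : SimpleGraph V}
    (hadj : ∀ u ∈ L.W, ∀ v ∈ L.W, u ≠ v → ∀ t, L.l u ≤ t → t ≤ L.r u → L.l v ≤ t → t ≤ L.r v → G.Adj u v)
    {h : V} (hh : h ∈ L.D) (X : Set (V × V)) (hX : ∀ g ∈ X, L.Gap g.1 g.2)
    (hXp : ∀ g ∈ X, ∀ g' : V × V, L.Gap g'.1 g'.2 → L.φ g'.1 = L.φ g.1 → L.r g'.1 < L.r g.1 → g' ∈ X)
    (B : Set V) (hB1 : h ∈ B) (hB2 : ∀ g ∈ X, L.φ g.1 = L.φ h → g.2 ∈ B)
    (hB3 : ∀ g ∈ X, L.φ g.1 = L.φ h → ∃ e ∈ B, e ∈ L.W ∧ L.φ e ≠ L.φ h ∧ L.l e ≤ L.r g.1 ∧ L.l g.2 ≤ L.r e)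
    (hB4 : ∀ v ∈ B, v = h ∨ (∃ g ∈ X, L.φ g.1 = L.φ h ∧ v = g.2) ∨
      (∃ g ∈ X, L.φ g.1 = L.φ h ∧ v ∈ L.W ∧ L.φ v ≠ L.φ h ∧ L.l v ≤ L.r g.1 ∧ L.l g.2 ≤ L.r v)) :
    (G.induce B).Connected ∧ ∃ a ∈ B, a ∈ L.W ∧ L.φ a = L.φ h ∧ (∀ a', (a, a') ∉ X) ∧
      ∀ t, L.p ≤ t → t ≤ L.r a → ∃ v ∈ B, v ∈ L.W ∧ L.l v ≤ t ∧ t ≤ L.r v := by
  have := Fintype.ofFinite V
  have hhW : h ∈ L.W := Or.inr (Or.inl hh)
  have hhp := L.Dp h hh
  -- every interval of the track other than h is the right end of a gap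
  have hpred : ∀ a ∈ L.W, L.φ a = L.φ h → a ≠ h → ∃ a', L.Gap a' a := by
    intro a ha hac hne
    refine gap_before hhW ha hac.symm ?_
    rcases L.disj h a hhW ha (Ne.symm hne) hac.symm with h1 | h1
    · exact h1
    · have := L.pl a ha; have := L.lr a ha; omega
  -- main intervals
  have hmainX : ∀ g ∈ X, L.φ g.1 = L.φ h → g.1 ∈ B := by
    intro g hg hgc
    by_cases h1 : g.1 = h
    · rw [h1]; exact hB1
    · obtain ⟨a', ha'⟩ := hpred g.1 (hX g hg).1 hgc h1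
      have h2 := hXp g hg (a', g.1) ha' ha'.2.2.1 (by
        have := ha'.2.2.2.1; have := L.lr g.1 (hX g hg).1; simp only; omega)
      exact hB2 (a', g.1) h2 (ha'.2.2.1.trans hgc)
  constructor
  · -- connectivity
    have hreach : ∀ n : ℕ, ∀ v (hv : v ∈ B), v ∈ L.W → L.φ v = L.φ h → (L.r v - L.p).toNat = n →
        (v = h ∨ ∃ g ∈ X, L.φ g.1 = L.φ h ∧ v = g.2) →
        (G.induce B).Reachable ⟨h, hB1⟩ ⟨v, hv⟩ := by
      intro n
      induction n using Nat.strong_induction_on with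
      | _ n ih =>
        intro v hv hvW hvc hn hcase
        rcases hcase with rfl | ⟨g, hg, hgc, rfl⟩
        · exact SimpleGraph.Reachable.refl _
        · have hG := hX g hg
          have e1 := L.lr g.2 hG.2.1
          have e2 := L.lr g.1 hG.1
          have e3 := L.pl g.1 hG.1
          have e4 := hG.2.2.2.1
          have hg1 : (g.1 = h ∨ ∃ g' ∈ X, L.φ g'.1 = L.φ h ∧ g.1 = g'.2) := by
            by_cases h1 : g.1 = h
            · exact Or.inl h1
            · right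
              obtain ⟨a', ha'⟩ := hpred g.1 hG.1 hgc h1
              exact ⟨(a', g.1), hXp g hg (a', g.1) ha' ha'.2.2.1 (by
                have := ha'.2.2.2.1; simp only; omega), ha'.2.2.1.trans hgc, rfl⟩
          have hr := ih (L.r g.1 - L.p).toNat (by omega) g.1 (hmainX g hg hgc) hG.1 hgc rfl hg1
          obtain ⟨e, heB, heW, hec, he1, he2⟩ := hB3 g hg hgc
          have ha1 : G.Adj g.1 e := hadj g.1 hG.1 e heW (by rintro rfl; exact hec hgc) (L.r g.1) e2 le_rfl he1 (by omega)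
          have ha2 : G.Adj e g.2 := hadj e heW g.2 hG.2.1 (by rintro rfl; exact hec (hG.2.2.1.symm.trans hgc)) (L.l g.2)
            (by omega) he2 le_rfl e1
          have r1 : (G.induce B).Reachable ⟨g.1, hmainX g hg hgc⟩ ⟨e, heB⟩ :=
            SimpleGraph.Adj.reachable (show (G.induce B).Adj _ _ from ha1)
          have r2 : (G.induce B).Reachable ⟨e, heB⟩ ⟨g.2, hv⟩ :=
            SimpleGraph.Adj.reachable (show (G.induce B).Adj _ _ from ha2)
          exact hr.trans (r1.trans r2)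
    have hall : ∀ v (hv : v ∈ B), (G.induce B).Reachable ⟨h, hB1⟩ ⟨v, hv⟩ := by
      intro v hv
      rcases hB4 v hv with rfl | ⟨g, hg, hgc, rfl⟩ | ⟨g, hg, hgc, heW, hec, he1, he2⟩
      · exact SimpleGraph.Reachable.refl _
      · exact hreach _ g.2 hv (hX g hg).2.1 ((hX g hg).2.2.1.symm.trans hgc) rfl (Or.inr ⟨g, hg, hgc, rfl⟩)
      · have hG := hX g hg
        have e2 := L.lr g.1 hG.1
        have e4 := hG.2.2.2.1
        have hg1 : (g.1 = h ∨ ∃ g' ∈ X, L.φ g'.1 = L.φ h ∧ g.1 = g'.2) := by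
          by_cases h1 : g.1 = h
          · exact Or.inl h1
          · right
            obtain ⟨a', ha'⟩ := hpred g.1 hG.1 hgc h1
            exact ⟨(a', g.1), hXp g hg (a', g.1) ha' ha'.2.2.1 (by
              have := ha'.2.2.2.1; simp only; omega), ha'.2.2.1.trans hgc, rfl⟩
        have hr := hreach _ g.1 (hmainX g hg hgc) hG.1 hgc rfl hg1
        have ha1 : G.Adj g.1 v := hadj g.1 hG.1 v heW (by rintro rfl; exact hec hgc) (L.r g.1) e2 le_rfl he1 (by omega)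
        exact hr.trans (SimpleGraph.Adj.reachable (show (G.induce B).Adj ⟨g.1, _⟩ ⟨v, hv⟩ from ha1))
    refine (SimpleGraph.connected_iff _).2 ⟨?_, ⟨⟨h, hB1⟩⟩⟩
    rintro ⟨u, hu⟩ ⟨v, hv⟩
    exact (hall u hu).symm.trans (hall v hv)
  · -- reach
    let MA : Finset V := univ.filter (fun v => v = h ∨ ∃ g ∈ X, L.φ g.1 = L.φ h ∧ v = g.2)
    have hMA : ∀ v, v ∈ MA ↔ (v = h ∨ ∃ g ∈ X, L.φ g.1 = L.φ h ∧ v = g.2) := by
      intro v; simp only [MA, mem_filter, mem_univ, true_and]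
    have hMAB : ∀ v ∈ MA, v ∈ B ∧ v ∈ L.W ∧ L.φ v = L.φ h := by
      intro v hv
      rcases (hMA v).1 hv with rfl | ⟨g, hg, hgc, rfl⟩
      · exact ⟨hB1, hhW, rfl⟩
      · exact ⟨hB2 g hg hgc, (hX g hg).2.1, (hX g hg).2.2.1.symm.trans hgc⟩
    obtain ⟨a, ha, hmax⟩ := Finset.exists_max_image MA (fun v => L.r v) ⟨h, (hMA h).2 (Or.inl rfl)⟩
    obtain ⟨haB, haW, hac⟩ := hMAB a ha
    refine ⟨a, haB, haW, hac, ?_, ?_⟩
    · intro a' hX'
      have h1 := hmax a' ((hMA a').2 (Or.inr ⟨(a, a'), hX', hac, rfl⟩))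
      have h2 := (hX _ hX').2.2.2.1
      have h3 := L.lr a' (hX _ hX').2.1
      simp only at h2
      omega
    · intro t ht1 ht2
      obtain ⟨x, hx, hmin⟩ := Finset.exists_min_image (MA.filter (fun v => t ≤ L.r v)) (fun v => L.r v)
        ⟨a, mem_filter.2 ⟨ha, ht2⟩⟩
      obtain ⟨hxM, hxt⟩ := mem_filter.1 hx
      obtain ⟨hxB, hxW, hxc⟩ := hMAB x hxM
      by_cases hxl : L.l x ≤ t
      · exact ⟨x, hxB, hxW, hxl, hxt⟩
      · rcases (hMA x).1 hxM with rfl | ⟨g, hg, hgc, rfl⟩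
        · omega
        · have hG := hX g hg
          have e4 := hG.2.2.2.1
          have e5 := L.lr g.2 hG.2.1
          have hg1 : g.1 ∈ MA := by
            rw [hMA]
            by_cases h1 : g.1 = h
            · exact Or.inl h1
            · right
              obtain ⟨a', ha'⟩ := hpred g.1 hG.1 hgc h1
              exact ⟨(a', g.1), hXp g hg (a', g.1) ha' ha'.2.2.1 (by
                have := ha'.2.2.2.1; have := L.lr g.1 hG.1; simp only; omega), ha'.2.2.1.trans hgc, rfl⟩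
          have hg1t : L.r g.1 < t := by
            by_contra hc
            have := hmin g.1 (mem_filter.2 ⟨hg1, by omega⟩)
            omega
          obtain ⟨e, heB, heW, hec, he1, he2⟩ := hB3 g hg hgc
          exact ⟨e, heB, heW, by omega, by omega⟩

/-- the bags of the bridging lemma -/
theorem bags_line [Finite V] {G : SimpleGraph V} (L : Line V)
    (hadj : ∀ u ∈ L.W, ∀ v ∈ L.W, u ≠ v → ∀ t, L.l u ≤ t → t ≤ L.r u → L.l v ≤ t → t ≤ L.r v → G.Adj u v) :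
    ∃ B : V → Set V,
      (∀ v, v ∈ L.D ∨ v ∈ L.C → v ∈ B v) ∧
      (∀ v, v ∈ L.D ∨ v ∈ L.C → ∀ w ∈ B v, w = v ∨ (w ∈ L.O ∧ ∃ u, (u ∈ L.D ∨ u ∈ L.C) ∧ L.φ w = L.φ u)) ∧
      (∀ v, v ∈ L.D ∨ v ∈ L.C → (G.induce (B v)).Connected) ∧
      (∀ u, u ∈ L.D ∨ u ∈ L.C → ∀ v, v ∈ L.D ∨ v ∈ L.C → u ≠ v → Disjoint (B u) (B v)) ∧
      (∀ d ∈ L.D, ∀ c ∈ L.C, L.Cov (L.φ d) (L.φ c) → ∃ u ∈ B d, ∃ w ∈ B c, G.Adj u w) := by
  have hDW : ∀ v ∈ L.D, v ∈ L.W := fun v hv => Or.inr (Or.inl hv)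
  have hCW : ∀ v ∈ L.C, v ∈ L.W := fun v hv => Or.inr (Or.inr hv)
  let GT : Type := {g : V × V // L.Gap g.1 g.2 ∧ ∃ h ∈ L.D, L.φ h = L.φ g.1}
  let FT : Type := {f : V × V // L.Gap f.1 f.2 ∧ ∃ c ∈ L.C, L.φ c = L.φ f.1}
  let lG : GT → ℕ := fun g => L.φ g.1.1
  let lF : FT → ℕ := fun f => L.φ f.1.1
  let pG : GT → ℕ := fun g => (L.r g.1.1 - L.p).toNat
  let pF : FT → ℕ := fun f => (L.l f.1.2 - 1 - L.p).toNat
  let N : ℕ → ℕ → Prop := fun i j => L.Cov i j
  -- basic inequalities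
  have gap_p : ∀ a b, L.Gap a b → L.p ≤ L.r a ∧ L.p < L.l b ∧ L.r a < L.q ∧ L.r a + 1 < L.l b := by
    intro a b h
    have h1 := L.pl a h.1
    have h2 := L.lr a h.1
    have h3 := L.lr b h.2.1
    have h4 := L.rq b h.2.1
    have h5 := h.2.2.2.1
    have h6 := L.dist a b h.1 h.2.1
    refine ⟨by omega, by omega, by omega, by omega⟩
  have hlt : ∀ (g : GT) (f : FT), pG g < pF f ↔ L.r g.1.1 < L.l f.1.2 := by
    intro g f
    have h1 := gap_p _ _ g.2.1
    have h2 := gap_p _ _ f.2.1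
    have h3 := L.dist g.1.1 f.1.2 g.2.1.1 f.2.1.2.1
    show (L.r g.1.1 - L.p).toNat < (L.l f.1.2 - 1 - L.p).toNat ↔ _
    omega
  obtain ⟨X, Y, eps, del, hX, hY, hXY, hXe, hYd⟩ := word_bl (D := ℕ) (C := ℕ) (G := GT) (F := FT) lG pG lF pF
    (by
      rintro ⟨⟨a, b⟩, hg, hg'⟩ ⟨⟨a', b'⟩, hk, hk'⟩ h1 h2
      have e1 := gap_p _ _ hg
      have e2 := gap_p _ _ hk
      simp only at e1 e2
      have h3 : L.r a = L.r a' := by
        change (L.r a - L.p).toNat = (L.r a' - L.p).toNat at h2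
        omega
      have h4 : a = a' := by
        by_contra hne
        have e3 := L.lr a hg.1
        have e4 := L.lr a' hk.1
        rcases L.disj a a' hg.1 hk.1 hne h1 with h5 | h5 <;> omega
      subst h4
      have h5 : b = b' := gap_unique_right hg hk
      subst h5
      rfl)
    (by
      rintro ⟨⟨a, b⟩, hg, hg'⟩ ⟨⟨a', b'⟩, hk, hk'⟩ h1 h2
      have e1 := gap_p _ _ hg
      have e2 := gap_p _ _ hk
      simp only at e1 e2
      have h3 : L.l b = L.l b' := by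
        change (L.l b - 1 - L.p).toNat = (L.l b' - 1 - L.p).toNat at h2
        omega
      have h4 : b = b' := by
        by_contra hne
        have e3 := L.lr b hg.2.1
        have e4 := L.lr b' hk.2.1
        have h6 : L.φ b = L.φ b' := hg.2.2.1.symm.trans (h1.trans hk.2.2.1)
        rcases L.disj b b' hg.2.1 hk.2.1 hne h6 with h5 | h5 <;> omega
      subst h4
      have h5 : a = a' := gap_unique_left hg hk
      subst h5
      rfl)
    (by
      intro g f h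
      have h1 := gap_p _ _ g.2.1
      have h2 := gap_p _ _ f.2.1
      have h3 := L.dist g.1.1 f.1.2 g.2.1.1 f.2.1.2.1
      change (L.r g.1.1 - L.p).toNat = (L.l f.1.2 - 1 - L.p).toNat at h
      omega)
    N
  -- the bags
  let BD : V → Set V := fun v => {w | w = v ∨ (∃ g ∈ X, L.φ g.1.1 = L.φ v ∧ w = g.1.2) ∨
    (∃ g ∈ X, ∃ f : FT, L.φ g.1.1 = L.φ v ∧ N (lG g) (lF f) ∧ pG g < pF f ∧
      (∀ f', lF f' = lF f → pG g < pF f' → pF f ≤ pF f') ∧ f ∉ Y ∧ eps f = some (lG g) ∧ w = f.1.1)}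
  let BC : V → Set V := fun v => {w | w = v ∨ (∃ f ∈ Y, L.φ f.1.1 = L.φ v ∧ w = f.1.1) ∨
    (∃ f ∈ Y, ∃ g : GT, L.φ f.1.1 = L.φ v ∧ N (lG g) (lF f) ∧ pG g < pF f ∧
      (∀ g', lG g' = lG g → pG g' < pF f → pG g' ≤ pG g) ∧ g ∉ X ∧ del g = some (lF f) ∧ w = g.1.2)}
  let B : V → Set V := fun v => if v ∈ L.D then BD v else BC v
  have hBD : ∀ v ∈ L.D, B v = BD v := fun v hv => if_pos hv
  have hCD : ∀ v ∈ L.C, v ∉ L.D := fun v hv h => L.DC v v h hv rfl
  have hBC : ∀ v ∈ L.C, B v = BC v := fun v hv => if_neg (hCD v hv)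
  -- ends of gaps
  have hgapD : ∀ a b, L.Gap a b → b ∉ L.D := by
    intro a b h hb
    have h1 := gap_p a b h
    have h2 := L.Dp b hb
    omega
  have hgapC : ∀ a b, L.Gap a b → a ∉ L.C := by
    intro a b h ha
    have h1 := gap_p a b h
    have h2 := L.Cq a ha
    omega
  -- half for D
  have halfD : ∀ v ∈ L.D, (G.induce (BD v)).Connected ∧ ∃ a ∈ BD v, a ∈ L.W ∧ L.φ a = L.φ v ∧
      (∀ a', (a, a') ∉ (Subtype.val '' X : Set (V × V))) ∧
      ∀ t, L.p ≤ t → t ≤ L.r a → ∃ w ∈ BD v, w ∈ L.W ∧ L.l w ≤ t ∧ t ≤ L.r w := by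
    intro v hv
    have key : ∀ g : GT, g ∈ X → L.φ g.1.1 = L.φ v → ∀ f : FT, N (lG g) (lF f) → pG g < pF f →
        (∀ f', lF f' = lF f → pG g < pF f' → pF f ≤ pF f') → 
        f.1.1 ∈ L.W ∧ L.φ f.1.1 ≠ L.φ v ∧ L.l f.1.1 ≤ L.r g.1.1 ∧ L.l g.1.2 ≤ L.r f.1.1 := by
      intro g hg hgv f hN hlt' hfirst
      have h1 := helper_cover (L := L) (i := L.φ g.1.1) (j := L.φ f.1.1) hN g.2.1 f.2.1 rfl
        f.2.1.2.2.1.symm ((hlt g f).1 hlt') (by
          intro x' x hx hxc hxl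
          have hxT : ∃ c ∈ L.C, L.φ c = L.φ x' := by
            obtain ⟨c, hc, hcc⟩ := f.2.2
            exact ⟨c, hc, hcc.trans (hxc.symm.trans hx.2.2.1.symm)⟩
          have h2 := hfirst ⟨(x', x), hx, hxT⟩ (show L.φ x' = L.φ f.1.1 from hx.2.2.1.trans hxc)
            ((hlt g ⟨(x', x), hx, hxT⟩).2 hxl)
          change (L.l f.1.2 - 1 - L.p).toNat ≤ (L.l x - 1 - L.p).toNat at h2
          have h3 := gap_p _ _ hx
          have h4 := gap_p _ _ f.2.1
          omega)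
      refine ⟨f.2.1.1, ?_, h1.1, h1.2⟩
      intro h
      obtain ⟨c, hc, hcc⟩ := f.2.2
      exact L.DC v c hv hc (h.symm.trans hcc.symm)
    refine half (L := L) hadj hv (Subtype.val '' X) ?_ ?_ (BD v) (Or.inl rfl) ?_ ?_ ?_
    · rintro g ⟨g, hg, rfl⟩; exact g.2.1
    · rintro g ⟨g, hg, rfl⟩ g' hg' hc hr
      have hT : ∃ h ∈ L.D, L.φ h = L.φ g'.1 := by
        obtain ⟨h, hh, hhc⟩ := g.2.2
        exact ⟨h, hh, hhc.trans hc.symm⟩
      refine ⟨⟨g', hg', hT⟩, hX g hg ⟨g', hg', hT⟩ hc ?_, rfl⟩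
      have h1 := gap_p _ _ hg'
      have h2 := gap_p _ _ g.2.1
      show (L.r g'.1 - L.p).toNat < (L.r g.1.1 - L.p).toNat
      omega
    · rintro g ⟨g, hg, rfl⟩ hgv
      exact Or.inr (Or.inl ⟨g, hg, hgv, rfl⟩)
    · rintro g ⟨g, hg, rfl⟩ hgv
      obtain ⟨f, h1, h2, h3, h4, h5⟩ := hXe g hg
      exact ⟨f.1.1, Or.inr (Or.inr ⟨g, hg, f, hgv, h1, h2, h3, h4, h5, rfl⟩), key g hg hgv f h1 h2 h3⟩
    · rintro w (rfl | ⟨g, hg, hgv, rfl⟩ | ⟨g, hg, f, hgv, h1, h2, h3, h4, h5, rfl⟩)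
      · exact Or.inl rfl
      · exact Or.inr (Or.inl ⟨g.1, ⟨g, hg, rfl⟩, hgv, rfl⟩)
      · exact Or.inr (Or.inr ⟨g.1, ⟨g, hg, rfl⟩, hgv, key g hg hgv f h1 h2 h3⟩)
  -- half for C
  have hadj' : ∀ u ∈ L.mirror.W, ∀ v ∈ L.mirror.W, u ≠ v → ∀ t, L.mirror.l u ≤ t → t ≤ L.mirror.r u →
      L.mirror.l v ≤ t → t ≤ L.mirror.r v → G.Adj u v := by
    intro u hu v hv huv t h1 h2 h3 h4
    rw [mirror_W] at hu hv
    change - L.r u ≤ t at h1
    change t ≤ - L.l u at h2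
    change - L.r v ≤ t at h3
    change t ≤ - L.l v at h4
    exact hadj u hu v hv huv (-t) (by omega) (by omega) (by omega) (by omega)
  have halfC : ∀ v ∈ L.C, (G.induce (BC v)).Connected ∧ ∃ b ∈ BC v, b ∈ L.W ∧ L.φ b = L.φ v ∧
      (∀ b', (b', b) ∉ (Subtype.val '' Y : Set (V × V))) ∧
      ∀ t, L.l b ≤ t → t ≤ L.q → ∃ w ∈ BC v, w ∈ L.W ∧ L.l w ≤ t ∧ t ≤ L.r w := by
    intro v hv
    have key : ∀ f : FT, f ∈ Y → L.φ f.1.1 = L.φ v → ∀ g : GT, N (lG g) (lF f) → pG g < pF f →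
        (∀ g', lG g' = lG g → pG g' < pF f → pG g' ≤ pG g) → 
        g.1.2 ∈ L.W ∧ L.φ g.1.2 ≠ L.φ v ∧ L.l f.1.2 ≤ L.r g.1.2 ∧ L.l g.1.2 ≤ L.r f.1.1 := by
      intro f hf hfv g hN hlt' hlast
      have hN' : L.mirror.Cov (L.φ f.1.1) (L.φ g.1.1) := cov_mirror hN
      have hr := (hlt g f).1 hlt'
      have h1 := helper_cover (L := L.mirror) (i := L.φ f.1.1) (j := L.φ g.1.1) hN'
        (a := f.1.2) (a' := f.1.1) (b' := g.1.2) (b := g.1.1)
        (L.mirror_gap.2 f.2.1) (L.mirror_gap.2 g.2.1) f.2.1.2.2.1.symm rfl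
        (show - L.l f.1.2 < - L.r g.1.1 by omega) (by
          intro x' x hx hxc hxl
          rw [mirror_gap] at hx
          change L.φ x = _ at hxc
          change - L.l f.1.2 < - L.r x at hxl
          have hxT : ∃ c ∈ L.D, L.φ c = L.φ x := by
            obtain ⟨c, hc, hcc⟩ := g.2.2
            exact ⟨c, hc, hcc.trans hxc.symm⟩
          have h2 := hlast ⟨(x, x'), hx, hxT⟩ hxc ((hlt ⟨(x, x'), hx, hxT⟩ f).2 (by simp only; omega))
          change (L.r x - L.p).toNat ≤ (L.r g.1.1 - L.p).toNat at h2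
          have h3 := gap_p _ _ hx
          have h4 := gap_p _ _ g.2.1
          show - L.r g.1.1 ≤ - L.r x
          omega)
      have h2 : - L.r g.1.2 ≤ - L.l f.1.2 := h1.1
      have h3 : - L.r f.1.1 ≤ - L.l g.1.2 := h1.2
      refine ⟨g.2.1.2.1, ?_, by omega, by omega⟩
      intro h
      obtain ⟨c, hc, hcc⟩ := g.2.2
      exact L.DC c v hc hv (hcc.trans (g.2.1.2.2.1.trans h))
    have hh := half (L := L.mirror) hadj' (h := v) hv ({g : V × V | (g.2, g.1) ∈ (Subtype.val '' Y : Set (V × V))}) ?_ ?_ (BC v)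
      (Or.inl rfl) ?_ ?_ ?_
    · obtain ⟨h1, b, hb, hbW, hbc, h2, h3⟩ := hh
      refine ⟨h1, b, hb, by rw [mirror_W] at hbW; exact hbW, hbc, h2, ?_⟩
      intro t ht1 ht2
      obtain ⟨w, hw1, hw2, hw3, hw4⟩ := h3 (-t) (show - L.q ≤ -t by omega) (show -t ≤ - L.l b by omega)
      change - L.r w ≤ -t at hw3
      change -t ≤ - L.l w at hw4
      exact ⟨w, hw1, by rw [mirror_W] at hw2; exact hw2, by omega, by omega⟩
    · rintro ⟨b, b'⟩ ⟨f, hf, hfe⟩
      rw [mirror_gap]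
      have := f.2.1
      rw [hfe] at this
      exact this
    · rintro ⟨b, b'⟩ ⟨f, hf, hfe⟩ ⟨x, x'⟩ hx hc hr
      rw [mirror_gap] at hx
      change L.φ x = L.φ b at hc
      change - L.l x < - L.l b at hr
      have hf1 : f.1.1 = b' := by rw [hfe]
      have hf2 : f.1.2 = b := by rw [hfe]
      have hT : ∃ h ∈ L.C, L.φ h = L.φ x' := by
        obtain ⟨h, hh, hhc⟩ := f.2.2
        refine ⟨h, hh, hhc.trans (f.2.1.2.2.1.trans ?_)⟩
        rw [hf2, ← hc]; exact hx.2.2.1.symm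
      refine ⟨⟨(x', x), hx, hT⟩, hY f hf ⟨(x', x), hx, hT⟩ ?_ ?_, rfl⟩
      · show L.φ x' = L.φ f.1.1
        rw [f.2.1.2.2.1, hf2, ← hc]; exact hx.2.2.1
      · have h1 := gap_p _ _ hx
        have h2 := gap_p _ _ f.2.1
        show (L.l f.1.2 - 1 - L.p).toNat < (L.l x - 1 - L.p).toNat
        rw [hf2] at h2 ⊢
        omega
    · rintro ⟨b, b'⟩ ⟨f, hf, hfe⟩ hv'
      change L.φ b = L.φ v at hv'
      have hf1 : f.1.1 = b' := by rw [hfe]
      have hf2 : f.1.2 = b := by rw [hfe]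
      exact Or.inr (Or.inl ⟨f, hf, by rw [f.2.1.2.2.1, hf2]; exact hv', hf1.symm⟩)
    · rintro ⟨b, b'⟩ ⟨f, hf, hfe⟩ hv'
      change L.φ b = L.φ v at hv'
      have hf1 : f.1.1 = b' := by rw [hfe]
      have hf2 : f.1.2 = b := by rw [hfe]
      have hfv : L.φ f.1.1 = L.φ v := by rw [f.2.1.2.2.1, hf2]; exact hv'
      obtain ⟨g, h1, h2, h3, h4, h5⟩ := hYd f hf
      have hk := key f hf hfv g h1 h2 h3
      refine ⟨g.1.2, Or.inr (Or.inr ⟨f, hf, g, hfv, h1, h2, h3, h4, h5, rfl⟩), by rw [mirror_W]; exact hk.1,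
        hk.2.1, ?_, ?_⟩
      · show - L.r g.1.2 ≤ - L.l b
        rw [← hf2]; omega
      · show - L.r b' ≤ - L.l g.1.2
        rw [← hf1]; omega
    · rintro w (rfl | ⟨f, hf, hfv, rfl⟩ | ⟨f, hf, g, hfv, h1, h2, h3, h4, h5, rfl⟩)
      · exact Or.inl rfl
      · exact Or.inr (Or.inl ⟨(f.1.2, f.1.1), ⟨f, hf, rfl⟩, f.2.1.2.2.1.symm.trans hfv, rfl⟩)
      · have hk := key f hf hfv g h1 h2 h3
        refine Or.inr (Or.inr ⟨(f.1.2, f.1.1), ⟨f, hf, rfl⟩, f.2.1.2.2.1.symm.trans hfv, by rw [mirror_W]; exact hk.1,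
          hk.2.1, ?_, ?_⟩)
        · show - L.r g.1.2 ≤ - L.l f.1.2
          omega
        · show - L.r f.1.1 ≤ - L.l g.1.2
          omega
  -- disjointness
  have hcolD : ∀ u ∈ L.D, ∀ v ∈ L.D, u ≠ v → L.φ u ≠ L.φ v := by
    intro u hu v hv huv h
    have h1 := L.Dp u hu
    have h2 := L.Dp v hv
    have h3 := L.lr u (hDW u hu)
    have h4 := L.lr v (hDW v hv)
    rcases L.disj u v (hDW u hu) (hDW v hv) huv h with h5 | h5 <;> omega
  have hcolC : ∀ u ∈ L.C, ∀ v ∈ L.C, u ≠ v → L.φ u ≠ L.φ v := by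
    intro u hu v hv huv h
    have h1 := L.Cq u hu
    have h2 := L.Cq v hv
    have h3 := L.lr u (hCW u hu)
    have h4 := L.lr v (hCW v hv)
    rcases L.disj u v (hCW u hu) (hCW v hv) huv h with h5 | h5 <;> omega
  have disDD : ∀ u ∈ L.D, ∀ v ∈ L.D, u ≠ v → Disjoint (BD u) (BD v) := by
    intro u hu v hv huv
    have hcol := hcolD u hu v hv huv
    rw [Set.disjoint_left]
    have hmain : ∀ (w u : V), (w = u ∨ ∃ g ∈ X, L.φ g.1.1 = L.φ u ∧ w = g.1.2) → L.φ w = L.φ u := by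
      rintro w u (rfl | ⟨g, hg, hgc, rfl⟩)
      · rfl
      · exact g.2.1.2.2.1.symm.trans hgc
    have hmh : ∀ (w u : V) (f : FT), u ∈ L.D → (w = u ∨ ∃ g ∈ X, L.φ g.1.1 = L.φ u ∧ w = g.1.2) → w = f.1.1 → False := by
      intro w u f hu h1 h2
      obtain ⟨c, hc, hcc⟩ := f.2.2
      exact L.DC u c hu hc ((hmain w u h1).symm.trans (by rw [h2, hcc]))
    rintro w (h1 | h1 | ⟨g, hg, f, hgc, h1, h2, h3, h4, h5, h6⟩) (h1' | h1' | ⟨g', hg', f', hgc', h1', h2', h3', h4', h5', h6'⟩)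
    · exact hcol ((hmain w u (Or.inl h1)).symm.trans (hmain w v (Or.inl h1')))
    · exact hcol ((hmain w u (Or.inl h1)).symm.trans (hmain w v (Or.inr h1')))
    · exact hmh w u f' hu (Or.inl h1) h6'
    · exact hcol ((hmain w u (Or.inr h1)).symm.trans (hmain w v (Or.inl h1')))
    · exact hcol ((hmain w u (Or.inr h1)).symm.trans (hmain w v (Or.inr h1')))
    · exact hmh w u f' hu (Or.inr h1) h6'
    · exact hmh w v f hv (Or.inl h1') h6
    · exact hmh w v f hv (Or.inr h1') h6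
    · have hff : f = f' := by
        apply Subtype.ext
        refine Prod.ext (h6.symm.trans h6') ?_
        have h7 := f'.2.1
        rw [← h6', h6] at h7
        exact gap_unique_right f.2.1 h7
      rw [hff, h5'] at h5
      have h7 : L.φ g'.1.1 = L.φ g.1.1 := by simpa using h5
      exact hcol (hgc.symm.trans (h7.symm.trans hgc'))
  have disCC : ∀ u ∈ L.C, ∀ v ∈ L.C, u ≠ v → Disjoint (BC u) (BC v) := by
    intro u hu v hv huv
    have hcol := hcolC u hu v hv huv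
    rw [Set.disjoint_left]
    have hmain : ∀ (w u : V), (w = u ∨ ∃ f ∈ Y, L.φ f.1.1 = L.φ u ∧ w = f.1.1) → L.φ w = L.φ u := by
      rintro w u (rfl | ⟨f, hf, hfc, rfl⟩)
      · rfl
      · exact hfc
    have hmh : ∀ (w u : V) (g : GT), u ∈ L.C → (w = u ∨ ∃ f ∈ Y, L.φ f.1.1 = L.φ u ∧ w = f.1.1) → w = g.1.2 → False := by
      intro w u g hu h1 h2
      obtain ⟨c, hc, hcc⟩ := g.2.2
      exact L.DC c u hc hu (hcc.trans (g.2.1.2.2.1.trans (by rw [← h2]; exact hmain w u h1)))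
    rintro w (h1 | h1 | ⟨f, hf, g, hgc, h1, h2, h3, h4, h5, h6⟩) (h1' | h1' | ⟨f', hf', g', hgc', h1', h2', h3', h4', h5', h6'⟩)
    · exact hcol ((hmain w u (Or.inl h1)).symm.trans (hmain w v (Or.inl h1')))
    · exact hcol ((hmain w u (Or.inl h1)).symm.trans (hmain w v (Or.inr h1')))
    · exact hmh w u g' hu (Or.inl h1) h6'
    · exact hcol ((hmain w u (Or.inr h1)).symm.trans (hmain w v (Or.inl h1')))
    · exact hcol ((hmain w u (Or.inr h1)).symm.trans (hmain w v (Or.inr h1')))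
    · exact hmh w u g' hu (Or.inr h1) h6'
    · exact hmh w v g hv (Or.inl h1') h6
    · exact hmh w v g hv (Or.inr h1') h6
    · have hff : g = g' := by
        apply Subtype.ext
        refine Prod.ext ?_ (h6.symm.trans h6')
        have h7 := g'.2.1
        rw [← h6', h6] at h7
        exact gap_unique_left g.2.1 h7
      rw [hff, h5'] at h5
      have h7 : L.φ f'.1.1 = L.φ f.1.1 := by simpa using h5
      exact hcol (hgc.symm.trans (h7.symm.trans hgc'))
  have disDC : ∀ u ∈ L.D, ∀ v ∈ L.C, Disjoint (BD u) (BC v) := by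
    intro u hu v hv
    rw [Set.disjoint_left]
    have hmu : ∀ w, (w = u ∨ ∃ g ∈ X, L.φ g.1.1 = L.φ u ∧ w = g.1.2) → L.φ w = L.φ u := by
      rintro w (rfl | ⟨g, hg, hgc, rfl⟩)
      · rfl
      · exact g.2.1.2.2.1.symm.trans hgc
    have hmv : ∀ w, (w = v ∨ ∃ f ∈ Y, L.φ f.1.1 = L.φ v ∧ w = f.1.1) → L.φ w = L.φ v := by
      rintro w (rfl | ⟨f, hf, hfc, rfl⟩)
      · rfl
      · exact hfc
    have hmm : ∀ w, (w = u ∨ ∃ g ∈ X, L.φ g.1.1 = L.φ u ∧ w = g.1.2) →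
        (w = v ∨ ∃ f ∈ Y, L.φ f.1.1 = L.φ v ∧ w = f.1.1) → False := by
      intro w h1 h2
      exact L.DC u v hu hv ((hmu w h1).symm.trans (hmv w h2))
    have hmh : ∀ w, (w = u ∨ ∃ g ∈ X, L.φ g.1.1 = L.φ u ∧ w = g.1.2) → ∀ g : GT, g ∉ X → w = g.1.2 → False := by
      rintro w (rfl | ⟨g', hg', hgc, rfl⟩) g hg h2
      · exact hgapD _ _ g.2.1 (h2 ▸ hu)
      · have hff : g = g' := by
          apply Subtype.ext
          refine Prod.ext ?_ h2.symm
          have h7 := g'.2.1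
          rw [h2] at h7
          exact gap_unique_left g.2.1 h7
        exact hg (hff ▸ hg')
    have hhm : ∀ w, (w = v ∨ ∃ f ∈ Y, L.φ f.1.1 = L.φ v ∧ w = f.1.1) → ∀ f : FT, f ∉ Y → w = f.1.1 → False := by
      rintro w (rfl | ⟨f', hf', hfc, rfl⟩) f hf h2
      · exact hgapC _ _ f.2.1 (h2 ▸ hv)
      · have hff : f = f' := by
          apply Subtype.ext
          refine Prod.ext h2.symm ?_
          have h7 := f'.2.1
          rw [h2] at h7
          exact gap_unique_right f.2.1 h7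
        exact hf (hff ▸ hf')
    rintro w (h1 | h1 | ⟨g, hg, f, hgc, h1, h2, h3, h4, h5, h6⟩) (h1' | h1' | ⟨f', hf', g', hgc', h1', h2', h3', h4', h5', h6'⟩)
    · exact hmm w (Or.inl h1) (Or.inl h1')
    · exact hmm w (Or.inl h1) (Or.inr h1')
    · exact hmh w (Or.inl h1) g' h4' h6'
    · exact hmm w (Or.inr h1) (Or.inl h1')
    · exact hmm w (Or.inr h1) (Or.inr h1')
    · exact hmh w (Or.inr h1) g' h4' h6'
    · exact hhm w (Or.inl h1') f h4 h6
    · exact hhm w (Or.inr h1') f h4 h6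
    · obtain ⟨c, hc, hcc⟩ := f.2.2
      obtain ⟨d, hd, hdd⟩ := g'.2.2
      refine L.DC d c hd hc (hdd.trans (g'.2.1.2.2.1.trans ?_))
      rw [← h6', h6, hcc]
  refine ⟨B, ?_, ?_, ?_, ?_, ?_⟩
  · rintro v (hv | hv)
    · rw [hBD v hv]; exact Or.inl rfl
    · rw [hBC v hv]; exact Or.inl rfl
  · rintro v (hv | hv) w hw
    · rw [hBD v hv] at hw
      rcases hw with h1 | ⟨g, hg, hgc, rfl⟩ | ⟨g, hg, f, hgc, h1, h2, h3, h4, h5, rfl⟩
      · exact Or.inl h1
      · right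
        obtain ⟨d, hd, hdd⟩ := g.2.2
        have hcol : L.φ g.1.2 = L.φ d := g.2.1.2.2.1.symm.trans hdd.symm
        refine ⟨?_, d, Or.inl hd, hcol⟩
        rcases g.2.1.2.1 with h | h | h
        · exact h
        · exact absurd h (hgapD _ _ g.2.1)
        · exact absurd hcol.symm (L.DC d _ hd h)
      · right
        obtain ⟨c, hc, hcc⟩ := f.2.2
        refine ⟨?_, c, Or.inr hc, hcc.symm⟩
        rcases f.2.1.1 with h | h | h
        · exact h
        · exact absurd hcc.symm (L.DC _ c h hc)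
        · exact absurd h (hgapC _ _ f.2.1)
    · rw [hBC v hv] at hw
      rcases hw with h1 | ⟨f, hf, hfc, rfl⟩ | ⟨f, hf, g, hfc, h1, h2, h3, h4, h5, rfl⟩
      · exact Or.inl h1
      · right
        obtain ⟨c, hc, hcc⟩ := f.2.2
        refine ⟨?_, c, Or.inr hc, hcc.symm⟩
        rcases f.2.1.1 with h | h | h
        · exact h
        · exact absurd hcc.symm (L.DC _ c h hc)
        · exact absurd h (hgapC _ _ f.2.1)
      · right
        obtain ⟨d, hd, hdd⟩ := g.2.2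
        have hcol : L.φ g.1.2 = L.φ d := g.2.1.2.2.1.symm.trans hdd.symm
        refine ⟨?_, d, Or.inl hd, hcol⟩
        rcases g.2.1.2.1 with h | h | h
        · exact h
        · exact absurd h (hgapD _ _ g.2.1)
        · exact absurd hcol.symm (L.DC d _ hd h)
  · rintro v (hv | hv)
    · rw [hBD v hv]; exact (halfD v hv).1
    · rw [hBC v hv]; exact (halfC v hv).1
  · rintro u (hu | hu) v (hv | hv) huv
    · rw [hBD u hu, hBD v hv]; exact disDD u hu v hv huv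
    · rw [hBD u hu, hBC v hv]; exact disDC u hu v hv
    · rw [hBC u hu, hBD v hv]; exact (disDC v hv u hu).symm
    · rw [hBC u hu, hBC v hv]; exact disCC u hu v hv huv
  · intro d hd c hc hcov
    rw [hBD d hd, hBC c hc]
    obtain ⟨-, a, haB, haW, hac, haX, hacov⟩ := halfD d hd
    obtain ⟨-, b, hbB, hbW, hbc, hbY, hbcov⟩ := halfC c hc
    have hdis := disDC d hd c hc
    rw [Set.disjoint_left] at hdis
    have ea := L.lr a haW
    have eb := L.lr b hbW
    have ea' := L.pl a haW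
    have eb' := L.rq b hbW
    have ea'' := L.rq a haW
    have eb'' := L.pl b hbW
    by_cases h1 : ∃ a', L.Gap a a'
    · by_cases h2 : ∃ b', L.Gap b' b
      · obtain ⟨a', ha'⟩ := h1
        obtain ⟨b', hb'⟩ := h2
        have hg : ∃ h ∈ L.D, L.φ h = L.φ a := ⟨d, hd, hac.symm⟩
        have hf : ∃ c ∈ L.C, L.φ c = L.φ b' := ⟨c, hc, (hb'.2.2.1.trans hbc).symm⟩
        have h3 : (⟨(a, a'), ha', hg⟩ : GT) ∉ X := fun h => haX a' ⟨_, h, rfl⟩
        have h4 : (⟨(b', b), hb', hf⟩ : FT) ∉ Y := fun h => hbY b' ⟨_, h, rfl⟩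
        have h5 := hXY _ h3 _ h4 (by
          show L.Cov (L.φ a) (L.φ b')
          rw [hac, hb'.2.2.1, hbc]; exact hcov)
        have h6 := gap_p _ _ ha'
        have h7 := gap_p _ _ hb'
        change (L.l b - 1 - L.p).toNat < (L.r a - L.p).toNat at h5
        obtain ⟨w, hwB, hwW, hw1, hw2⟩ := hbcov (L.r a) (by omega) (by omega)
        exact ⟨a, haB, w, hwB, hadj a haW w hwW (fun h => hdis haB (h ▸ hwB)) (L.r a) ea le_rfl hw1 hw2⟩
      · push Not at h2
        have h3 := tail_cover (L := L.mirror) (i := L.φ c) (c := d) (a := b) hd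
          (cov_mirror hcov) (by rw [mirror_W]; exact hbW) hbc (fun h => L.DC d c hd hc h.symm)
          (fun b' hb' => h2 b' (L.mirror_gap.1 hb'))
        have h4 : - L.r d ≤ - L.l b := h3
        have h5 := L.Dp d hd
        exact ⟨d, Or.inl rfl, b, hbB, hadj d (hDW d hd) b hbW (fun h => hdis (Or.inl rfl) (h ▸ hbB)) (L.l b)
          (by omega) (by omega) le_rfl eb⟩
    · push Not at h1
      have h3 := tail_cover (L := L) (i := L.φ d) hc hcov haW hac (L.DC d c hd hc) h1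
      have h5 := L.Cq c hc
      exact ⟨a, haB, c, Or.inl rfl, hadj a haW c (hCW c hc) (fun h => hdis haB (h ▸ Or.inl rfl)) (L.r a) ea le_rfl h3
        (by omega)⟩

end Line

end Pool.Agent.CA92
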