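import Mathlib
import Pool.Agent.CA31.Defs
import Pool.Agent.CA.GU

/-!
# GVQ: colouring circular-arc families from a pair condition

Cut the circle at position `0`; `A` = arcs through `0` (their complements are *windows*), `H` = the other arcs (*jobs*).
`k = |A| + F` colours suffice iff the jobs can be scheduled on `F` full machines and the windows.
The proof is a left-to-right exchange argument (augmenting path + permuting the futures of windows idle at a tight position).
-/

set_option autoImplicit false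

namespace Pool.Agent.CA92

open Finset Pool.Agent.CA31 Pool.Agent.CA
open scoped Classical

/-- deficiency version of Hall's theorem -/
theorem hall_def {V W : Type} [Fintype W] (J : Finset V) (N : V → Finset W) (d : ℕ)
    (h : ∀ S ⊆ J, S.card ≤ d + (S.biUnion N).card) :
    ∃ J' ⊆ J, J.card ≤ J'.card + d ∧ ∃ w : V → Option W, (∀ u ∈ J', ∃ x ∈ N u, w u = some x) ∧
      ∀ u ∈ J', ∀ v ∈ J', w u = w v → u = v := by
  let t : {u : V // u ∈ J} → Finset (W ⊕ Fin d) := fun u =>
    (N u.1).disjSum (univ : Finset (Fin d))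
  have hall : ∀ s : Finset {u : V // u ∈ J}, s.card ≤ (s.biUnion t).card := by
    intro s
    rcases s.eq_empty_or_nonempty with rfl | hne
    · simp
    have h1 := h (s.map (Function.Embedding.subtype _)) (by
      intro x hx
      rw [mem_map] at hx
      obtain ⟨y, -, rfl⟩ := hx
      exact y.2)
    rw [card_map] at h1
    have h2 : ((s.map (Function.Embedding.subtype _)).biUnion N).disjSum (univ : Finset (Fin d)) ⊆
        s.biUnion t := by
      intro x hx
      rw [mem_disjSum] at hx
      rw [mem_biUnion]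
      rcases hx with ⟨y, hy, rfl⟩ | ⟨y, hy, rfl⟩
      · rw [mem_biUnion] at hy
        obtain ⟨u, hu, hy⟩ := hy
        rw [mem_map] at hu
        obtain ⟨u', hu', rfl⟩ := hu
        exact ⟨u', hu', by simpa [t] using hy⟩
      · obtain ⟨u, hu⟩ := hne
        exact ⟨u, hu, by simp [t]⟩
    have h3 := card_le_card h2
    rw [card_disjSum, card_univ, Fintype.card_fin] at h3
    omega
  obtain ⟨f, hf, hft⟩ := (Finset.all_card_le_biUnion_card_iff_exists_injective t).1 hall
  -- jobs matched to real windows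
  let g : V → Option W := fun u => if hu : u ∈ J then (f ⟨u, hu⟩).getLeft? else none
  refine ⟨J.filter (fun u => g u ≠ none), filter_subset _ _, ?_, g, ?_, ?_⟩
  · -- the others inject into Fin d
    have hsplit := Finset.card_filter_add_card_filter_not (s := J) (fun u => g u ≠ none)
    have : (J.filter (fun u => ¬ g u ≠ none)).card ≤ d := by
      have hmap : ∀ u ∈ J.filter (fun u => ¬ g u ≠ none), ∃ i : Fin d, ∃ hu : u ∈ J, f ⟨u, hu⟩ = Sum.inr i := by
        intro u hu
        rw [mem_filter] at hu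
        obtain ⟨hu, h2⟩ := hu
        push Not at h2
        have h3 : (f ⟨u, hu⟩).getLeft? = none := by
          have : g u = (f ⟨u, hu⟩).getLeft? := by simp [g, hu]
          rw [← this]; exact h2
        rcases hfx : f ⟨u, hu⟩ with a | i
        · rw [hfx] at h3; simp at h3
        · exact ⟨i, hu, hfx⟩
      rcases Nat.eq_zero_or_pos d with hd | hd
      · have : J.filter (fun u => ¬ g u ≠ none) = ∅ := by
          by_contra hne
          obtain ⟨u, hu⟩ := Finset.nonempty_iff_ne_empty.2 hne
          obtain ⟨i, -⟩ := hmap u hu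
          exact absurd i.2 (by omega)
        rw [this]; simp
      · let e : V → Fin d := fun u => if hu : ∃ i : Fin d, ∃ hu : u ∈ J, f ⟨u, hu⟩ = Sum.inr i then hu.choose else ⟨0, hd⟩
        have he : ∀ u ∈ J.filter (fun u => ¬ g u ≠ none), ∃ hu : u ∈ J, f ⟨u, hu⟩ = Sum.inr (e u) := by
          intro u hu
          have h1 := hmap u hu
          have : e u = h1.choose := by simp only [e]; rw [dif_pos h1]
          rw [this]
          exact h1.choose_spec
        have := Finset.card_le_card_of_injOn (s := J.filter (fun u => ¬ g u ≠ none)) (t := (univ : Finset (Fin d))) e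
          (fun _ _ => mem_univ _) (by
            intro u hu v hv huv
            obtain ⟨hu1, hu2⟩ := he u hu
            obtain ⟨hv1, hv2⟩ := he v hv
            rw [huv, ← hv2] at hu2
            have := hf hu2
            simpa using this)
        rwa [card_univ, Fintype.card_fin] at this
    omega
  · intro u hu
    rw [mem_filter] at hu
    obtain ⟨hu, h2⟩ := hu
    have h3 : g u = (f ⟨u, hu⟩).getLeft? := by simp [g, hu]
    have h4 := hft ⟨u, hu⟩
    rcases hfx : f ⟨u, hu⟩ with a | i
    · rw [hfx] at h3 h4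
      refine ⟨a, by simpa [t] using h4, by simpa using h3⟩
    · rw [hfx] at h3
      simp at h3
      exact absurd h3 h2
  · intro u hu v hv huv
    rw [mem_filter] at hu hv
    obtain ⟨hu, h2⟩ := hu
    obtain ⟨hv, h2'⟩ := hv
    have h3 : g u = (f ⟨u, hu⟩).getLeft? := by simp [g, hu]
    have h3' : g v = (f ⟨v, hv⟩).getLeft? := by simp [g, hv]
    rcases hfx : f ⟨u, hu⟩ with a | i
    · rcases hfy : f ⟨v, hv⟩ with b | j
      · rw [hfx] at h3; rw [hfy] at h3'
        simp at h3 h3'
        rw [h3, h3'] at huv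
        have : a = b := by simpa using huv
        rw [this, ← hfy] at hfx
        have := hf hfx
        simpa using this
      · rw [hfy] at h3'; simp at h3'; exact absurd h3' h2'
    · rw [hfx] at h3; simp at h3; exact absurd h3 h2

variable {V : Type} [Fintype V]

/-- a hosting of jobs starting before position `z` in windows -/
structure Valid (M : Model V) (f : V → Option V) (z : ℕ) : Prop where
  isH : ∀ h b, f h = some b → M.IsH h
  isA : ∀ h b, f h = some b → M.IsA b
  win : ∀ h b, f h = some b → M.c b < M.o h ∧ M.c h < M.o b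
  dis : ∀ h h' b, f h = some b → f h' = some b → h ≠ h' → M.c h < M.o h' ∨ M.c h' < M.o h
  bef : ∀ h b, f h = some b → M.o h < z

/-- number of jobs through `p` which are not hosted -/
noncomputable def un (M : Model V) (f : V → Option V) (p : ℕ) : ℕ :=
  ((M.H p).filter (fun h => f h = none)).card

/-- number of jobs through `p` which are hosted -/
noncomputable def ho (M : Model V) (f : V → Option V) (p : ℕ) : ℕ :=
  ((M.H p).filter (fun h => f h ≠ none)).card

variable {M : Model V}

theorem un_add_ho (f : V → Option V) (p : ℕ) : un M f p + ho M f p = (M.H p).card := by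
  unfold un ho
  exact Finset.card_filter_add_card_filter_not _

/-- two jobs hosted on the same window and through the same position are equal -/
theorem Valid.same {f : V → Option V} {z : ℕ} (hf : Valid M f z) {h h' b : V} {p : ℕ}
    (h1 : f h = some b) (h2 : f h' = some b) (h3 : h ∈ M.H p) (h4 : h' ∈ M.H p) : h = h' := by
  by_contra hne
  rw [Model.mem_H] at h3 h4
  rcases hf.dis h h' b h1 h2 hne with h5 | h5 <;> omega

theorem Valid.mono {f : V → Option V} {z z' : ℕ} (hf : Valid M f z) (h : z ≤ z') : Valid M f z' :=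
  ⟨hf.isH, hf.isA, hf.win, hf.dis, fun a b hab => lt_of_lt_of_le (hf.bef a b hab) h⟩

/-- ATTACH -/
theorem attach {F z : ℕ} {g : V → Option V} (hg : Valid M g z) (hun : ∀ p < z, un M g p ≤ F)
    {v x : V} (hv : v ∈ M.H z) (hgv : g v = none) (hx : M.IsA x) (hx1 : M.c x < M.o v)
    (hx2 : M.c v < M.o x) (hlong : ∀ h ∈ M.H z, g h ≠ some x)
    (htight : ∀ t ≤ M.o v, ∀ h, g h = some x → M.o h < t → t ≤ M.c h → M.o v < M.c h → un M g t < F) :
    ∃ g' : V → Option V, Valid M g' z ∧ (∀ p < z, un M g' p ≤ F) ∧ ho M g' z = ho M g z + 1 := by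
  have hvH := Model.mem_H.1 hv
  let g' : V → Option V := fun h => if h = v then some x else if g h = some x ∧ M.o v < M.c h then none else g h
  have hg'v : g' v = some x := by simp [g']
  have hg'1 : ∀ h, h ≠ v → (g h = some x ∧ M.o v < M.c h) → g' h = none := by
    intro h h1 h2; simp only [g']; rw [if_neg h1, if_pos h2]
  have hg'2 : ∀ h, h ≠ v → ¬ (g h = some x ∧ M.o v < M.c h) → g' h = g h := by
    intro h h1 h2; simp only [g']; rw [if_neg h1, if_neg h2]
  have hcase : ∀ h b, g' h = some b → (h = v ∧ b = x) ∨ (h ≠ v ∧ g h = some b ∧ ¬ (g h = some x ∧ M.o v < M.c h)) := by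
    intro h b hb
    by_cases h1 : h = v
    · left; subst h1; rw [hg'v] at hb; exact ⟨rfl, by simpa using hb.symm⟩
    · right
      by_cases h2 : g h = some x ∧ M.o v < M.c h
      · rw [hg'1 h h1 h2] at hb; simp at hb
      · rw [hg'2 h h1 h2] at hb; exact ⟨h1, hb, h2⟩
  -- hosted jobs on x are short
  have hshort : ∀ h, g h = some x → M.c h < z := by
    intro h hh
    by_contra hc
    exact hlong h (Model.mem_H.2 ⟨hg.isH h x hh, hg.bef h x hh, by omega⟩) hh
  refine ⟨g', ⟨?_, ?_, ?_, ?_, ?_⟩, ?_, ?_⟩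
  · intro h b hb
    rcases hcase h b hb with ⟨rfl, rfl⟩ | ⟨-, h2, -⟩
    · exact hvH.1
    · exact hg.isH h b h2
  · intro h b hb
    rcases hcase h b hb with ⟨rfl, rfl⟩ | ⟨-, h2, -⟩
    · exact hx
    · exact hg.isA h b h2
  · intro h b hb
    rcases hcase h b hb with ⟨rfl, rfl⟩ | ⟨-, h2, -⟩
    · exact ⟨hx1, hx2⟩
    · exact hg.win h b h2
  · intro h h' b hb hb' hne
    rcases hcase h b hb with ⟨rfl, rfl⟩ | ⟨h1, h2, h3⟩
    · rcases hcase h' b hb' with ⟨rfl, -⟩ | ⟨h1', h2', h3'⟩
      · exact absurd rfl hne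
      · right
        have := M.o_ne_c h h'
        by_contra hc
        exact h3' ⟨h2', by omega⟩
    · rcases hcase h' b hb' with ⟨rfl, rfl⟩ | ⟨h1', h2', h3'⟩
      · left
        have := M.o_ne_c h' h
        by_contra hc
        exact h3 ⟨h2, by omega⟩
      · exact hg.dis h h' b h2 h2' hne
  · intro h b hb
    rcases hcase h b hb with ⟨rfl, rfl⟩ | ⟨-, h2, -⟩
    · exact hvH.2.1
    · exact hg.bef h b h2
  · intro p hp
    -- unhosted jobs of g' at p
    by_cases hex : ∃ h ∈ M.H p, g h = some x ∧ M.o v < M.c h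
    · obtain ⟨h0, hh0, hh1, hh2⟩ := hex
      have hsub : (M.H p).filter (fun h => g' h = none) ⊆ insert h0 (((M.H p).filter (fun h => g h = none)).erase v) := by
        intro h hh
        rw [mem_filter] at hh
        rw [mem_insert, mem_erase, mem_filter]
        by_cases h1 : h = v
        · rw [h1, hg'v] at hh; simp at hh
        · by_cases h2 : g h = some x ∧ M.o v < M.c h
          · left; exact hg.same h2.1 hh1 hh.1 hh0
          · right; rw [hg'2 h h1 h2] at hh; exact ⟨h1, hh.1, hh.2⟩
      have h1 := card_le_card hsub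
      have h2 := card_insert_le h0 (((M.H p).filter (fun h => g h = none)).erase v)
      have h3 : un M g' p = ((M.H p).filter (fun h => g' h = none)).card := rfl
      have h4 : un M g p = ((M.H p).filter (fun h => g h = none)).card := rfl
      have h5 := hun p hp
      by_cases hpv : p ≤ M.o v
      · rw [Model.mem_H] at hh0
        have h6 := htight p hpv h0 hh1 hh0.2.1 hh0.2.2 hh2
        have h7 := card_le_card (erase_subset v ((M.H p).filter (fun h => g h = none)))
        omega
      · have hvm : v ∈ (M.H p).filter (fun h => g h = none) := by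
          rw [mem_filter, Model.mem_H]
          exact ⟨⟨hvH.1, by omega, by omega⟩, hgv⟩
        have h7 := card_erase_of_mem hvm
        have h8 : 0 < ((M.H p).filter (fun h => g h = none)).card := card_pos.2 ⟨v, hvm⟩
        omega
    · have hsub : (M.H p).filter (fun h => g' h = none) ⊆ (M.H p).filter (fun h => g h = none) := by
        intro h hh
        rw [mem_filter] at hh ⊢
        by_cases h1 : h = v
        · rw [h1, hg'v] at hh; simp at hh
        · by_cases h2 : g h = some x ∧ M.o v < M.c h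
          · exact absurd ⟨h, hh.1, h2⟩ hex
          · rw [hg'2 h h1 h2] at hh; exact hh
      exact (card_le_card hsub).trans (hun p hp)
  · have heq : (M.H z).filter (fun h => g' h ≠ none) = insert v ((M.H z).filter (fun h => g h ≠ none)) := by
      ext h
      rw [mem_insert, mem_filter, mem_filter]
      by_cases h1 : h = v
      · subst h1; simp [hg'v, hv]
      · by_cases h2 : g h = some x ∧ M.o v < M.c h
        · constructor
          · rintro ⟨-, h3⟩; exact absurd (hg'1 h h1 h2) h3
          · rintro (h3 | ⟨h3, -⟩)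
            · exact absurd h3 h1
            · exact absurd h2.1 (hlong h h3)
        · rw [hg'2 h h1 h2]; simp [h1]
    unfold ho
    rw [heq, card_insert_of_notMem]
    rw [mem_filter]
    rintro ⟨-, h2⟩
    exact h2 hgv

/-- the swap of the futures (after position `t`) of two windows -/
theorem swap {z t : ℕ} (htz : t ≤ z) {g : V → Option V} (hg : Valid M g z) {J : Finset V} (hJ : J ⊆ M.H z)
    {w : V → V} (hwA : ∀ u ∈ J, M.IsA (w u)) (hwin : ∀ u ∈ J, M.c (w u) < M.o u ∧ M.c u < M.o (w u))
    (hidle : ∀ u ∈ J, ∀ h, M.o h < t → t ≤ M.c h → g h ≠ some (w u))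
    (hsh : ∀ u ∈ J, ∀ h, g h ≠ none → h ∉ M.H z → t ≤ M.o h → M.c (w u) < M.o h)
    {u u' : V} (hu : u ∈ J) (hu' : u' ∈ J) (hgu' : g u' = some (w u))
    (hno : ∀ h ∈ M.H z, g h ≠ some (w u')) :
    ∃ g' : V → Option V, Valid M g' z ∧ (∀ h, g' h = none ↔ g h = none) ∧
      (∀ u ∈ J, ∀ h, M.o h < t → t ≤ M.c h → g' h ≠ some (w u)) ∧
      (J.filter (fun u => g u = some (w u))).card < (J.filter (fun u => g' u = some (w u))).card := by
  have hne : w u' ≠ w u := by
    intro he
    exact hno u' (hJ hu') (by rw [hgu', he])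
  have huH := Model.mem_H.1 (hJ hu)
  have hu'H := Model.mem_H.1 (hJ hu')
  have hu't : t ≤ M.o u' := by
    by_contra hc
    exact hidle u hu u' (by omega) (by omega) hgu'
  let g' : V → Option V := fun h =>
    if t ≤ M.o h ∧ g h = some (w u) then some (w u')
    else if t ≤ M.o h ∧ g h = some (w u') then some (w u) else g h
  have e1 : ∀ h, t ≤ M.o h → g h = some (w u) → g' h = some (w u') := by
    intro h h1 h2; simp only [g']; rw [if_pos ⟨h1, h2⟩]
  have e2 : ∀ h, t ≤ M.o h → g h = some (w u') → g' h = some (w u) := by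
    intro h h1 h2; simp only [g']
    rw [if_neg, if_pos ⟨h1, h2⟩]
    rintro ⟨-, h3⟩
    rw [h2] at h3
    exact hne (by simpa using h3)
  have e3 : ∀ h, M.o h < t → g' h = g h := by
    intro h h1; simp only [g']
    rw [if_neg (by rintro ⟨h2, -⟩; omega), if_neg (by rintro ⟨h2, -⟩; omega)]
  have e4 : ∀ h, g h ≠ some (w u) → g h ≠ some (w u') → g' h = g h := by
    intro h h1 h2; simp only [g']
    rw [if_neg (by rintro ⟨-, h3⟩; exact h1 h3), if_neg (by rintro ⟨-, h3⟩; exact h2 h3)]
  have hshort : ∀ h b, g h = some b → h ∉ M.H z → M.c h < z := by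
    intro h b hh hz
    by_contra hc
    exact hz (Model.mem_H.2 ⟨hg.isH h b hh, hg.bef h b hh, by omega⟩)
  -- the possible cases for a hosted job
  have hcase : ∀ h b, g' h = some b →
      (t ≤ M.o h ∧ g h = some (w u) ∧ b = w u') ∨ (t ≤ M.o h ∧ g h = some (w u') ∧ b = w u) ∨
      (g h = some b ∧ (M.o h < t ∨ (b ≠ w u ∧ b ≠ w u'))) := by
    intro h b hb
    by_cases h1 : t ≤ M.o h
    · by_cases h2 : g h = some (w u)
      · left; rw [e1 h h1 h2] at hb; exact ⟨h1, h2, by simpa using hb.symm⟩
      · by_cases h3 : g h = some (w u')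
        · right; left; rw [e2 h h1 h3] at hb; exact ⟨h1, h3, by simpa using hb.symm⟩
        · right; right; rw [e4 h h2 h3] at hb
          refine ⟨hb, Or.inr ⟨?_, ?_⟩⟩
          · rintro rfl; exact h2 hb
          · rintro rfl; exact h3 hb
    · right; right; rw [e3 h (by omega)] at hb; exact ⟨hb, Or.inl (by omega)⟩
  have hpast : ∀ h v, v ∈ J → g h = some (w v) → M.o h < t → M.c h < t := by
    intro h v hv hh h1
    by_contra hc
    exact hidle v hv h h1 (by omega) hh
  refine ⟨g', ⟨?_, ?_, ?_, ?_, ?_⟩, ?_, ?_, ?_⟩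
  · intro h b hb
    rcases hcase h b hb with ⟨-, h2, -⟩ | ⟨-, h2, -⟩ | ⟨h2, -⟩ <;> exact hg.isH h _ h2
  · intro h b hb
    rcases hcase h b hb with ⟨-, h2, rfl⟩ | ⟨-, h2, rfl⟩ | ⟨h2, -⟩
    · exact hwA u' hu'
    · exact hwA u hu
    · exact hg.isA h _ h2
  · intro h b hb
    rcases hcase h b hb with ⟨h1, h2, rfl⟩ | ⟨h1, h2, rfl⟩ | ⟨h2, -⟩
    · by_cases hz : h ∈ M.H z
      · have : h = u' := hg.same h2 hgu' hz (hJ hu')
        rw [this]; exact hwin u' hu'
      · have h3 := hsh u' hu' h (by rw [h2]; simp) hz h1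
        have h4 := hshort h _ h2 hz
        have h5 := hwin u' hu'
        exact ⟨h3, by omega⟩
    · by_cases hz : h ∈ M.H z
      · exact absurd h2 (hno h hz)
      · have h3 := hsh u hu h (by rw [h2]; simp) hz h1
        have h4 := hshort h _ h2 hz
        have h5 := hwin u hu
        exact ⟨h3, by omega⟩
    · exact hg.win h _ h2
  · intro h h' b hb hb' hneq
    rcases hcase h b hb with ⟨h1, h2, h3⟩ | ⟨h1, h2, h3⟩ | ⟨h2, h3⟩
    · rcases hcase h' b hb' with ⟨h1', h2', h3'⟩ | ⟨h1', h2', h3'⟩ | ⟨h2', h3'⟩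
      · exact hg.dis h h' _ h2 h2' hneq
      · exact absurd (h3.symm.trans h3') hne
      · rcases h3' with h4 | ⟨-, h4⟩
        · rw [h3] at h2'
          have := hpast h' u' hu' h2' h4
          right; omega
        · exact absurd h3 h4
    · rcases hcase h' b hb' with ⟨h1', h2', h3'⟩ | ⟨h1', h2', h3'⟩ | ⟨h2', h3'⟩
      · exact absurd (h3'.symm.trans h3) hne
      · exact hg.dis h h' _ h2 h2' hneq
      · rcases h3' with h4 | ⟨h4, -⟩
        · rw [h3] at h2'
          have := hpast h' u hu h2' h4
          right; omega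
        · exact absurd h3 h4
    · rcases hcase h' b hb' with ⟨h1', h2', h3'⟩ | ⟨h1', h2', h3'⟩ | ⟨h2', h3'⟩
      · rcases h3 with h4 | ⟨-, h4⟩
        · rw [h3'] at h2
          have := hpast h u' hu' h2 h4
          left; omega
        · exact absurd h3' h4
      · rcases h3 with h4 | ⟨h4, -⟩
        · rw [h3'] at h2
          have := hpast h u hu h2 h4
          left; omega
        · exact absurd h3' h4
      · exact hg.dis h h' _ h2 h2' hneq
  · intro h b hb
    rcases hcase h b hb with ⟨-, h2, -⟩ | ⟨-, h2, -⟩ | ⟨h2, -⟩ <;> exact hg.bef h _ h2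
  · intro h
    by_cases h1 : t ≤ M.o h
    · by_cases h2 : g h = some (w u)
      · rw [e1 h h1 h2, h2]; simp
      · by_cases h3 : g h = some (w u')
        · rw [e2 h h1 h3, h3]; simp
        · rw [e4 h h2 h3]
    · rw [e3 h (by omega)]
  · intro v hv h h1 h2
    rw [e3 h h1]
    exact hidle v hv h h1 h2
  · apply card_lt_card
    rw [Finset.ssubset_iff_of_subset]
    · refine ⟨u', ?_, ?_⟩
      · rw [mem_filter]; exact ⟨hu', e1 u' hu't hgu'⟩
      · rw [mem_filter]; rintro ⟨-, h1⟩
        rw [hgu'] at h1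
        exact hne (by simpa using h1.symm)
    · intro v hv
      rw [mem_filter] at hv ⊢
      refine ⟨hv.1, ?_⟩
      rw [e4 v ?_ ?_]
      · exact hv.2
      · intro h1
        have h2 : v = u' := hg.same h1 hgu' (hJ hv.1) (hJ hu')
        rw [h2, hgu'] at hv
        exact hne (by simpa using hv.2.symm)
      · exact hno v (hJ hv.1)

/-- LEMMA X -/
theorem lemX {z t : ℕ} (htz : t ≤ z) {g : V → Option V} (hg : Valid M g z) {J : Finset V} (hJ : J ⊆ M.H z)
    {w : V → V} (hwA : ∀ u ∈ J, M.IsA (w u)) (hwin : ∀ u ∈ J, M.c (w u) < M.o u ∧ M.c u < M.o (w u))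
    (hinj : ∀ u ∈ J, ∀ v ∈ J, w u = w v → u = v)
    (hidle : ∀ u ∈ J, ∀ h, M.o h < t → t ≤ M.c h → g h ≠ some (w u))
    (hsh : ∀ u ∈ J, ∀ h, g h ≠ none → h ∉ M.H z → t ≤ M.o h → M.c (w u) < M.o h)
    (hJo : ∀ u ∈ J, g u ≠ none → t ≤ M.o u)
    (hcard : ((M.H z).filter (fun h => g h ≠ none ∧ t ≤ M.o h)).card < J.card) :
    ∃ g' : V → Option V, Valid M g' z ∧ (∀ h, g' h = none ↔ g h = none) ∧
      ∃ u ∈ J, g u = none ∧ (∀ h ∈ M.H z, g' h ≠ some (w u)) ∧
        (∀ h, M.o h < t → t ≤ M.c h → g' h ≠ some (w u)) := by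
  -- choose g' with the maximal number of agreements
  let 𝒢 : Finset (V → Option V) := univ.filter (fun g' => Valid M g' z ∧ (∀ h, g' h = none ↔ g h = none) ∧
      (∀ u ∈ J, ∀ h, M.o h < t → t ≤ M.c h → g' h ≠ some (w u)))
  have hgG : g ∈ 𝒢 := Finset.mem_filter.2 ⟨mem_univ _, hg, fun h => Iff.rfl, hidle⟩
  obtain ⟨g', hg'G, hmax⟩ := Finset.exists_max_image 𝒢 (fun g' => (J.filter (fun u => g' u = some (w u))).card) ⟨g, hgG⟩
  obtain ⟨-, hv, hnone, hid⟩ := Finset.mem_filter.1 hg'G
  refine ⟨g', hv, hnone, ?_⟩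
  by_contra hcon
  push Not at hcon
  have hcon' : ∀ u ∈ J, g u = none → ∃ h ∈ M.H z, g' h = some (w u) := by
    intro u hu hgu
    by_contra hc
    push Not at hc
    obtain ⟨h, h1, h2, h3⟩ := hcon u hu hgu hc
    exact hid u hu h h1 h2 h3
  -- the injection
  let lam : V → V := fun u => if hx : ∃ h ∈ M.H z, g' h = some (w u) then hx.choose else u
  have hlam1 : ∀ u, (∃ h ∈ M.H z, g' h = some (w u)) → lam u ∈ M.H z ∧ g' (lam u) = some (w u) := by
    intro u hx
    have : lam u = hx.choose := by simp only [lam]; rw [dif_pos hx]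
    rw [this]; exact hx.choose_spec
  have hlam2 : ∀ u, ¬ (∃ h ∈ M.H z, g' h = some (w u)) → lam u = u := by
    intro u hx; simp only [lam]; rw [dif_neg hx]
  have hmixed : ∀ u ∈ J, ∀ u' ∈ J, g' u' = some (w u) → (∃ h ∈ M.H z, g' h = some (w u')) := by
    intro u hu u' hu' h1
    by_contra hc
    push Not at hc
    obtain ⟨g'', h2, h3, h4, h5⟩ := swap htz hv hJ hwA hwin hid (by
      intro v hv' h hh; rw [ne_eq, hnone] at hh; exact hsh v hv' h hh) hu hu' h1 hc
    have h6 := hmax g'' (Finset.mem_filter.2 ⟨mem_univ _, h2, fun h => (h3 h).trans (hnone h), h4⟩)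
    omega
  have hle : J.card ≤ ((M.H z).filter (fun h => g h ≠ none ∧ t ≤ M.o h)).card := by
    apply Finset.card_le_card_of_injOn lam
    · intro u hu
      have hu : u ∈ J := hu
      by_cases hx : ∃ h ∈ M.H z, g' h = some (w u)
      · obtain ⟨h1, h2⟩ := hlam1 u hx
        have h1' := Model.mem_H.1 h1
        show lam u ∈ (M.H z).filter (fun h => g h ≠ none ∧ t ≤ M.o h)
        rw [mem_filter]
        refine ⟨h1, ?_, ?_⟩
        · rw [ne_eq, ← hnone, h2]; simp
        · by_contra hc
          exact hid u hu (lam u) (by omega) (by omega) h2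
      · show lam u ∈ (M.H z).filter (fun h => g h ≠ none ∧ t ≤ M.o h)
        rw [hlam2 u hx, mem_filter]
        have h1 : g u ≠ none := fun h => hx (hcon' u hu h)
        exact ⟨hJ hu, h1, hJo u hu h1⟩
    · intro u hu u' hu' he
      have hu : u ∈ J := hu
      have hu' : u' ∈ J := hu'
      by_cases hx : ∃ h ∈ M.H z, g' h = some (w u)
      · obtain ⟨h1, h2⟩ := hlam1 u hx
        by_cases hx' : ∃ h ∈ M.H z, g' h = some (w u')
        · obtain ⟨h1', h2'⟩ := hlam1 u' hx'
          rw [he, h2'] at h2
          exact (hinj u' hu' u hu (by simpa using h2)).symm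
        · rw [he, hlam2 u' hx'] at h2
          exact absurd (hmixed u hu u' hu' h2) hx'
      · by_cases hx' : ∃ h ∈ M.H z, g' h = some (w u')
        · obtain ⟨h1', h2'⟩ := hlam1 u' hx'
          rw [← he, hlam2 u hx] at h2'
          exact absurd (hmixed u' hu' u hu h2') hx
        · rw [hlam2 u hx, hlam2 u' hx'] at he
          exact he
  omega

/-- windows containing a job of `S` and opened before `t` -/
noncomputable def NW (M : Model V) (t : ℕ) (S : Finset V) : Finset V :=
  M.A.filter (fun b => M.c b < t ∧ ∃ s ∈ S, M.c b < M.o s ∧ M.c s < M.o b)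

/-- windows containing a job of `S` -/
noncomputable def NA (M : Model V) (S : Finset V) : Finset V :=
  M.A.filter (fun b => ∃ s ∈ S, M.c b < M.o s ∧ M.c s < M.o b)

/-- from Hall to a function into windows -/
theorem hall_win (J : Finset V) (N : V → Finset V) (d : ℕ)
    (h : ∀ S ⊆ J, S.card ≤ d + (S.biUnion N).card) :
    ∃ J' ⊆ J, J.card ≤ J'.card + d ∧ ∃ w : V → V, (∀ u ∈ J', w u ∈ N u) ∧
      ∀ u ∈ J', ∀ v ∈ J', w u = w v → u = v := by
  obtain ⟨J', h1, h2, w, h3, h4⟩ := hall_def J N d h
  refine ⟨J', h1, h2, fun u => (w u).getD u, ?_, ?_⟩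
  · intro u hu
    obtain ⟨x, hx, hw⟩ := h3 u hu
    simp only [hw, Option.getD_some]; exact hx
  · intro u hu v hv huv
    obtain ⟨x, hx, hw⟩ := h3 u hu
    obtain ⟨y, hy, hw'⟩ := h3 v hv
    simp only [hw, hw', Option.getD_some] at huv
    exact h4 u hu v hv (by rw [hw, hw', huv])

theorem un_congr {g g' : V → Option V} (h : ∀ v, g' v = none ↔ g v = none) (p : ℕ) : un M g' p = un M g p := by
  unfold un
  congr 1
  ext v
  rw [mem_filter, mem_filter, h]

theorem ho_congr {g g' : V → Option V} (h : ∀ v, g' v = none ↔ g v = none) (p : ℕ) : ho M g' p = ho M g p := by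
  have h1 := un_add_ho (M := M) g p
  have h2 := un_add_ho (M := M) g' p
  have h3 := un_congr (M := M) h p
  omega

/-- LEMMA X at a tight position -/
theorem lemT {F z t : ℕ} (htz : t < z) {g : V → Option V} (hg : Valid M g z)
    (htight : un M g t = F) (hhost : ∃ h ∈ M.H t, g h ≠ none) (hz : F < un M g z)
    (hC : F < (M.H t).card → F < (M.H z).card → ∀ S ⊆ M.H z, F < S.card →
      (S.filter (fun h => h ∈ M.H t)).card ≤ F → (M.H t).card + S.card ≤ 2 * F + (NW M t S).card) :
    ∃ g' : V → Option V, Valid M g' z ∧ (∀ h, g' h = none ↔ g h = none) ∧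
      ∃ u ∈ M.H z, g u = none ∧ ∃ x, M.IsA x ∧ M.c x < t ∧ M.c x < M.o u ∧ M.c u < M.o x ∧
        (∀ h ∈ M.H z, g' h ≠ some x) ∧ (∀ h, M.o h < t → t ≤ M.c h → g' h ≠ some x) := by
  have h1 := un_add_ho (M := M) g t
  have h2 := un_add_ho (M := M) g z
  have hho : 0 < ho M g t := by
    obtain ⟨h, hh1, hh2⟩ := hhost
    exact card_pos.2 ⟨h, mem_filter.2 ⟨hh1, hh2⟩⟩
  let J0 : Finset V := (M.H z).filter (fun h => ¬ (g h ≠ none ∧ M.o h < t))
  let N : V → Finset V := fun u => M.A.filter (fun x => M.c x < t ∧ (∀ h ∈ M.H t, g h ≠ some x) ∧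
    M.c x < M.o u ∧ M.c u < M.o x)
  have hJ0 : J0 ⊆ M.H z := filter_subset _ _
  have hall : ∀ S ⊆ J0, S.card ≤ (un M g z - 1) + (S.biUnion N).card := by
    intro S hS
    rcases Nat.lt_or_ge F S.card with hc | hc
    · have h3 : (S.filter (fun h => h ∈ M.H t)).card ≤ F := by
        rw [← htight]
        apply card_le_card
        intro h hh
        rw [mem_filter] at hh
        rw [mem_filter]
        refine ⟨hh.2, ?_⟩
        have h4 := mem_filter.1 (hS hh.1)
        by_contra h5
        exact h4.2 ⟨h5, (Model.mem_H.1 hh.2).2.1⟩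
      have h4 := hC (by omega) (by omega) S (hS.trans hJ0) hc h3
      -- windows
      have h5 : NW M t S ⊆ (S.biUnion N) ∪ ((M.H t).filter (fun h => g h ≠ none)).image (fun h => (g h).getD h) := by
        intro b hb
        rw [NW, mem_filter] at hb
        obtain ⟨hbA, hbt, s, hs, hs1, hs2⟩ := hb
        rw [mem_union]
        by_cases hbusy : ∃ h ∈ M.H t, g h = some b
        · right
          obtain ⟨h, hh1, hh2⟩ := hbusy
          rw [mem_image]
          exact ⟨h, mem_filter.2 ⟨hh1, by rw [hh2]; simp⟩, by rw [hh2]; simp⟩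
        · left
          rw [mem_biUnion]
          push Not at hbusy
          exact ⟨s, hs, mem_filter.2 ⟨hbA, hbt, hbusy, hs1, hs2⟩⟩
      have h6 := card_le_card h5
      have h7 := card_union_le (S.biUnion N) (((M.H t).filter (fun h => g h ≠ none)).image (fun h => (g h).getD h))
      have h8 : (((M.H t).filter (fun h => g h ≠ none)).image (fun h => (g h).getD h)).card ≤ ho M g t := card_image_le
      omega
    · omega
  obtain ⟨J', hJ'1, hJ'2, w, hw1, hw2⟩ := hall_win J0 N _ hall
  have hwm : ∀ u ∈ J', M.IsA (w u) ∧ M.c (w u) < t ∧ (∀ h ∈ M.H t, g h ≠ some (w u)) ∧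
      M.c (w u) < M.o u ∧ M.c u < M.o (w u) := by
    intro u hu
    have := mem_filter.1 (hw1 u hu)
    exact ⟨Model.mem_A.1 this.1, this.2⟩
  have hidle : ∀ u ∈ J', ∀ h, M.o h < t → t ≤ M.c h → g h ≠ some (w u) := by
    intro u hu h hh1 hh2 hh3
    exact (hwm u hu).2.2.1 h (Model.mem_H.2 ⟨hg.isH h _ hh3, hh1, hh2⟩) hh3
  have hcard0 : J0.card = un M g z + ((M.H z).filter (fun h => g h ≠ none ∧ t ≤ M.o h)).card := by
    have e : J0 = ((M.H z).filter (fun h => g h = none)) ∪ ((M.H z).filter (fun h => g h ≠ none ∧ t ≤ M.o h)) := by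
      ext h
      simp only [J0, mem_union, mem_filter, not_and, not_lt]
      constructor
      · rintro ⟨h3, h4⟩
        by_cases h5 : g h = none
        · exact Or.inl ⟨h3, h5⟩
        · exact Or.inr ⟨h3, h5, h4 h5⟩
      · rintro (⟨h3, h4⟩ | ⟨h3, h4, h5⟩)
        · exact ⟨h3, fun h5 => absurd h4 h5⟩
        · exact ⟨h3, fun _ => h5⟩
    rw [e, card_union_of_disjoint]
    · rfl
    · rw [Finset.disjoint_left]
      intro h h3 h4
      rw [mem_filter] at h3 h4
      exact h4.2.1 h3.2
  obtain ⟨g', hg'1, hg'2, u, hu, hgu, hg'3, hg'4⟩ := lemX (t := t) htz.le hg (hJ'1.trans hJ0)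
    (fun u hu => (hwm u hu).1) (fun u hu => (hwm u hu).2.2.2) hw2 hidle
    (fun u hu h _ _ hh => by have := (hwm u hu).2.1; omega)
    (fun u hu hgu => by
      have := (mem_filter.1 (hJ'1 hu)).2
      by_contra hc
      exact this ⟨hgu, by omega⟩)
    (by omega)
  exact ⟨g', hg'1, hg'2, u, hJ0 (hJ'1 hu), hgu, w u, (hwm u hu).1, (hwm u hu).2.1, (hwm u hu).2.2.2.1,
    (hwm u hu).2.2.2.2, hg'3, hg'4⟩

/-- the induction step: one more position -/
theorem step {F z : ℕ}
    (hC1 : ∀ S ⊆ M.H z, F < S.card → S.card ≤ F + (NA M S).card)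
    (hC2 : ∀ t < z, F < (M.H t).card → F < (M.H z).card → ∀ S ⊆ M.H z, F < S.card →
      (S.filter (fun h => h ∈ M.H t)).card ≤ F → (M.H t).card + S.card ≤ 2 * F + (NW M t S).card)
    {f : V → Option V} (hf : Valid M f z) (hun : ∀ p < z, un M f p ≤ F) :
    ∃ g : V → Option V, Valid M g z ∧ ∀ p ≤ z, un M g p ≤ F := by
  by_contra hcon
  have hbad : ∀ g : V → Option V, Valid M g z → (∀ p < z, un M g p ≤ F) → F < un M g z := by
    intro g h1 h2
    by_contra h3
    refine hcon ⟨g, h1, fun p hp => ?_⟩
    rcases Nat.lt_or_ge p z with h4 | h4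
    · exact h2 p h4
    · have : p = z := by omega
      rw [this]; omega
  let n := Fintype.card V
  let 𝒮 : Finset (V → Option V) := univ.filter (fun g => Valid M g z ∧ ∀ p < z, un M g p ≤ F)
  let hn : (V → Option V) → ℕ := fun g => (univ.filter (fun h => g h ≠ none)).card
  have hnn : ∀ g, hn g ≤ n := fun g => card_le_univ _
  obtain ⟨g, hgS, hmax⟩ := Finset.exists_max_image 𝒮 (fun g => ho M g z * (n + 1) + (n - hn g))
    ⟨f, mem_filter.2 ⟨mem_univ _, hf, hun⟩⟩
  obtain ⟨-, hg, hgun⟩ := mem_filter.1 hgS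
  have hM1 : ∀ g', Valid M g' z → (∀ p < z, un M g' p ≤ F) → ho M g' z ≠ ho M g z + 1 := by
    intro g' h1 h2 h3
    have h4 := hmax g' (mem_filter.2 ⟨mem_univ _, h1, h2⟩)
    rw [h3, Nat.add_mul] at h4
    omega
  have hM2 : ∀ g', Valid M g' z → (∀ p < z, un M g' p ≤ F) → ho M g' z = ho M g z → hn g ≤ hn g' := by
    intro g' h1 h2 h3
    have h4 := hmax g' (mem_filter.2 ⟨mem_univ _, h1, h2⟩)
    rw [h3] at h4
    have h5 := hnn g
    have h6 := hnn g'
    omega
  have hgz := hbad g hg hgun
  have h0 := un_add_ho (M := M) g z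
  -- attaching is impossible
  have hno : ∀ g', Valid M g' z → (∀ h, g' h = none ↔ g h = none) → ∀ v ∈ M.H z, g v = none → ∀ x, M.IsA x →
      M.c x < M.o v → M.c v < M.o x → (∀ h ∈ M.H z, g' h ≠ some x) →
      (∀ t ≤ M.o v, ∀ h, g' h = some x → M.o h < t → t ≤ M.c h → M.o v < M.c h → un M g t < F) → False := by
    intro g' h1 h2 v hv hgv x hx hx1 hx2 hlong ht
    obtain ⟨g'', h3, h4, h5⟩ := attach (F := F) h1 (fun p hp => by rw [un_congr h2]; exact hgun p hp) hv
      ((h2 v).2 hgv) hx hx1 hx2 hlong (fun t h3 h h4 h5 h6 h7 => by rw [un_congr h2]; exact ht t h3 h h4 h5 h6 h7)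
    rw [ho_congr h2] at h5
    exact hM1 g'' h3 h4 h5
  by_cases htex : ∃ t, t < z ∧ un M g t = F ∧ ∃ h ∈ M.H t, g h ≠ none
  · -- tight positions exist
    let T : Finset ℕ := (range z).filter (fun t => un M g t = F ∧ ∃ h ∈ M.H t, g h ≠ none)
    have hTmem : ∀ t, t ∈ T ↔ t < z ∧ un M g t = F ∧ ∃ h ∈ M.H t, g h ≠ none := by
      intro t; simp only [T, mem_filter, mem_range]
    have hTne : T.Nonempty := by
      obtain ⟨t, ht⟩ := htex
      exact ⟨t, (hTmem t).2 ht⟩
    obtain ⟨t1, ht1, ht1min⟩ := Finset.exists_min_image T id hTne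
    simp only [id] at ht1min
    -- strictly below t1 nothing is tight
    have hbelow : ∀ g', (∀ h, g' h = none ↔ g h = none) → Valid M g' z → ∀ t < t1, ∀ h x, g' h = some x → M.o h < t → t ≤ M.c h → un M g t < F := by
      intro g' h1 h2 t ht h x h3 h4 h5
      have ht1' := (hTmem t1).1 ht1
      have h6 := hgun t (by omega)
      by_contra h7
      have h8 : t ∈ T := (hTmem t).2 ⟨by omega, by omega, h, Model.mem_H.2 ⟨h2.isH h x h3, h4, h5⟩, by
        rw [ne_eq, ← h1, h3]; simp⟩
      have := ht1min t h8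
      omega
    have hX : ∀ t ∈ T, ∃ g' : V → Option V, Valid M g' z ∧ (∀ h, g' h = none ↔ g h = none) ∧
        ∃ u ∈ M.H z, g u = none ∧ ∃ x, M.IsA x ∧ M.c x < t ∧ M.c x < M.o u ∧ M.c u < M.o x ∧
        (∀ h ∈ M.H z, g' h ≠ some x) ∧ (∀ h, M.o h < t → t ≤ M.c h → g' h ≠ some x) := by
      intro t ht
      obtain ⟨h1, h2, h3⟩ := (hTmem t).1 ht
      exact lemT h1 hg h2 h3 hgz (hC2 t h1)
    let N' : Finset V := (M.H z).filter (fun v => g v = none ∧ t1 ≤ M.o v)
    rcases N'.eq_empty_or_nonempty with hN | hN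
    · obtain ⟨g', h1, h2, u, hu, hgu, x, hx, hx1, hx2, hx3, hx4, hx5⟩ := hX t1 ht1
      have hlt : M.o u < t1 := by
        by_contra hc
        have : u ∈ N' := mem_filter.2 ⟨hu, hgu, by omega⟩
        rw [hN] at this; simp at this
      exact hno g' h1 h2 u hu hgu x hx hx2 hx3 hx4
        (fun t ht h h3 h4 h5 h6 => hbelow g' h2 h1 t (by omega) h x h3 h4 h5)
    · obtain ⟨v, hv, hvmin⟩ := Finset.exists_min_image N' (fun v => M.c v) hN
      obtain ⟨hvz, hgv, hvt⟩ := mem_filter.1 hv
      have hTv : (T.filter (fun t => t ≤ M.o v)).Nonempty := ⟨t1, mem_filter.2 ⟨ht1, hvt⟩⟩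
      obtain ⟨t, ht, htmax⟩ := Finset.exists_max_image (T.filter (fun t => t ≤ M.o v)) id hTv
      simp only [id] at htmax
      obtain ⟨htT, htv⟩ := mem_filter.1 ht
      obtain ⟨g', h1, h2, u, hu, hgu, x, hx, hx1, hx2, hx3, hx4, hx5⟩ := hX t htT
      by_cases hcase : M.o u < t1
      · exact hno g' h1 h2 u hu hgu x hx hx2 hx3 hx4
          (fun t ht h h3 h4 h5 h6 => hbelow g' h2 h1 t (by omega) h x h3 h4 h5)
      · have huN : u ∈ N' := mem_filter.2 ⟨hu, hgu, by omega⟩
        have hcv := hvmin u huN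
        have hvz' := Model.mem_H.1 hvz
        refine hno g' h1 h2 v hvz hgv x hx (by omega) (by omega) hx4 (fun t' ht' h h3 h4 h5 h6 => ?_)
        have h7 := hgun t' (by omega)
        by_contra h8
        have h9 : t' ∈ T := (hTmem t').2 ⟨by omega, by omega, h, Model.mem_H.2 ⟨h1.isH h x h3, h4, h5⟩, by
          rw [ne_eq, ← h2, h3]; simp⟩
        have h10 := htmax t' (mem_filter.2 ⟨h9, ht'⟩)
        exact hx5 h (by omega) (by omega) h3
  · -- no tight positions
    push Not at htex
    have hnt : ∀ t < z, ∀ h ∈ M.H t, g h ≠ none → un M g t < F := by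
      intro t ht h hh hgh
      have := hgun t ht
      by_contra hc
      exact hgh (htex t ht (by omega) h hh)
    -- all hosted jobs are long
    have hlong : ∀ h, g h ≠ none → h ∈ M.H z := by
      intro h hh
      by_contra hc
      obtain ⟨b, hb⟩ := Option.ne_none_iff_exists'.1 hh
      let g' : V → Option V := Function.update g h none
      have e1 : g' h = none := by simp [g']
      have e2 : ∀ v, v ≠ h → g' v = g v := by
        intro v hv; simp [g', Function.update_of_ne hv]
      have e3 : ∀ v b, g' v = some b → v ≠ h ∧ g v = some b := by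
        intro v b hv
        by_cases hvh : v = h
        · rw [hvh, e1] at hv; simp at hv
        · rw [e2 v hvh] at hv; exact ⟨hvh, hv⟩
      have hval : Valid M g' z := by
        refine ⟨?_, ?_, ?_, ?_, ?_⟩
        · intro v b hv; exact hg.isH v b (e3 v b hv).2
        · intro v b hv; exact hg.isA v b (e3 v b hv).2
        · intro v b hv; exact hg.win v b (e3 v b hv).2
        · intro v v' b hv hv' hne; exact hg.dis v v' b (e3 v b hv).2 (e3 v' b hv').2 hne
        · intro v b hv; exact hg.bef v b (e3 v b hv).2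
      have hun' : ∀ p < z, un M g' p ≤ F := by
        intro p hp
        by_cases hph : h ∈ M.H p
        · have h3 := hnt p hp h hph hh
          have h4 : (M.H p).filter (fun v => g' v = none) ⊆ insert h ((M.H p).filter (fun v => g v = none)) := by
            intro v hv
            rw [mem_filter] at hv
            rw [mem_insert, mem_filter]
            by_cases hvh : v = h
            · exact Or.inl hvh
            · rw [e2 v hvh] at hv; exact Or.inr hv
          have h5 := card_le_card h4
          have h6 := card_insert_le h ((M.H p).filter (fun v => g v = none))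
          have h7 : un M g' p = ((M.H p).filter (fun h => g' h = none)).card := rfl
          have h8 : un M g p = ((M.H p).filter (fun h => g h = none)).card := rfl
          omega
        · have : un M g' p = un M g p := by
            unfold un
            congr 1
            apply filter_congr
            intro v hv
            rw [e2 v (by rintro rfl; exact hph hv)]
          rw [this]; exact hgun p hp
      have hho' : ho M g' z = ho M g z := by
        unfold ho
        congr 1
        apply filter_congr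
        intro v hv
        rw [e2 v (by rintro rfl; exact hc hv)]
      have h3 := hM2 g' hval hun' hho'
      have h4 : hn g' < hn g := by
        apply card_lt_card
        rw [Finset.ssubset_iff_of_subset]
        · exact ⟨h, mem_filter.2 ⟨mem_univ _, hh⟩, fun hc' => (mem_filter.1 hc').2 e1⟩
        · intro v hv
          rw [mem_filter] at hv ⊢
          refine ⟨mem_univ _, ?_⟩
          by_cases hvh : v = h
          · rw [hvh] at hv; exact absurd e1 hv.2
          · rw [e2 v hvh] at hv; exact hv.2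
      omega
    let N : V → Finset V := fun u => M.A.filter (fun x => M.c x < M.o u ∧ M.c u < M.o x)
    have hall : ∀ S ⊆ M.H z, S.card ≤ (un M g z - 1) + (S.biUnion N).card := by
      intro S hS
      rcases Nat.lt_or_ge F S.card with hc | hc
      · have h1 := hC1 S hS hc
        have h2 : NA M S ⊆ S.biUnion N := by
          intro b hb
          rw [NA, mem_filter] at hb
          obtain ⟨hbA, s, hs, hs1, hs2⟩ := hb
          rw [mem_biUnion]
          exact ⟨s, hs, mem_filter.2 ⟨hbA, hs1, hs2⟩⟩
        have h3 := card_le_card h2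
        omega
      · omega
    obtain ⟨J', hJ'1, hJ'2, w, hw1, hw2⟩ := hall_win (M.H z) N _ hall
    have hwm : ∀ u ∈ J', M.IsA (w u) ∧ M.c (w u) < M.o u ∧ M.c u < M.o (w u) := by
      intro u hu
      have := mem_filter.1 (hw1 u hu)
      exact ⟨Model.mem_A.1 this.1, this.2⟩
    obtain ⟨g', hg'1, hg'2, u, hu, hgu, hg'3, -⟩ := lemX (t := 0) (Nat.zero_le _) hg hJ'1
      (fun u hu => (hwm u hu).1) (fun u hu => (hwm u hu).2) hw2
      (fun u _ h hh => absurd hh (by omega))
      (fun u _ h hh hz => absurd (hlong h hh) hz)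
      (fun _ _ _ => Nat.zero_le _)
      (by
        have : ((M.H z).filter (fun h => g h ≠ none ∧ 0 ≤ M.o h)) = (M.H z).filter (fun h => g h ≠ none) := by
          apply filter_congr; intro v _; simp
        rw [this]
        have : ho M g z = ((M.H z).filter (fun h => g h ≠ none)).card := rfl
        omega)
    refine hno g' hg'1 hg'2 u (hJ'1 hu) hgu (w u) (hwm u hu).1 (hwm u hu).2.1 (hwm u hu).2.2 hg'3
      (fun t ht h h3 h4 h5 h6 => ?_)
    have h7 := Model.mem_H.1 (hJ'1 hu)
    exact hnt t (by omega) h (Model.mem_H.2 ⟨hg'1.isH h _ h3, h4, h5⟩) (by rw [ne_eq, ← hg'2, h3]; simp)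

/-- a clique of jobs passes through a common position -/
theorem clq_pos {G : SimpleGraph V} (hG : M.IsModelOf G) {K : Finset V} (hK : ∀ v ∈ K, M.IsH v) (hcl : Clq G K)
    (hne : K.Nonempty) : ∃ p, K ⊆ M.H p := by
  obtain ⟨a, ha, hmax⟩ := Finset.exists_max_image K (fun v => M.o v) hne
  refine ⟨M.o a + 1, ?_⟩
  intro v hv
  have h1 := hmax v hv
  have h2 := hK v hv
  rw [Model.mem_H]
  refine ⟨h2, by omega, ?_⟩
  by_cases hva : v = a
  · subst hva; unfold Model.IsH at h2; omega
  · have h3 := (Model.adj_HH hG h2 (hK a ha)).1 (hcl v hv a ha hva)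
    omega

/-- a hosting with at most `F` unhosted jobs at every position gives a colouring -/
theorem colOn_of_hosting {G : SimpleGraph V} (hG : M.IsModelOf G) {F z : ℕ} {g : V → Option V}
    (hg : Valid M g z) (hun : ∀ p, un M g p ≤ F) : ColOn G univ (M.A.card + F) := by
  let X : Finset V := univ.filter (fun v => M.IsH v ∧ g v = none)
  have hX : ColOn G X F := by
    apply interval_col hG
    · intro v hv; exact (mem_filter.1 hv).2.1
    · intro K hK hcl
      rcases K.eq_empty_or_nonempty with rfl | hne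
      · simp
      · obtain ⟨p, hp⟩ := clq_pos hG (fun v hv => (mem_filter.1 (hK hv)).2.1) hcl hne
        refine le_trans (card_le_card ?_) (hun p)
        intro v hv
        exact mem_filter.2 ⟨hp hv, (mem_filter.1 (hK hv)).2.2⟩
  obtain ⟨ψ, hψ1, hψ2⟩ := hX
  -- numbering of A
  let e : V → ℕ := fun b => if hb : b ∈ M.A then (M.A.equivFin ⟨b, hb⟩ : ℕ) else 0
  have he1 : ∀ b ∈ M.A, e b < M.A.card := by
    intro b hb; simp only [e]; rw [dif_pos hb]; exact (M.A.equivFin ⟨b, hb⟩).2
  have he2 : ∀ b ∈ M.A, ∀ b' ∈ M.A, e b = e b' → b = b' := by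
    intro b hb b' hb' h
    simp only [e] at h
    rw [dif_pos hb, dif_pos hb'] at h
    have := M.A.equivFin.injective (Fin.ext h)
    simpa using this
  -- the host of a vertex
  let H : V → Option V := fun v => if M.IsA v then some v else g v
  have hH : ∀ v b, H v = some b → (M.IsA v ∧ v = b) ∨ (M.IsH v ∧ g v = some b) := by
    intro v b hv
    by_cases h1 : M.IsA v
    · left; simp only [H, if_pos h1] at hv; exact ⟨h1, by simpa using hv⟩
    · right; simp only [H, if_neg h1] at hv; exact ⟨M.not_isA.1 h1, hv⟩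
  have hHA : ∀ v b, H v = some b → b ∈ M.A := by
    intro v b hv
    rcases hH v b hv with ⟨h1, rfl⟩ | ⟨-, h1⟩
    · exact Model.mem_A.2 h1
    · exact Model.mem_A.2 (hg.isA v b h1)
  have hHn : ∀ v, H v = none → v ∈ X := by
    intro v hv
    by_cases h1 : M.IsA v
    · simp only [H, if_pos h1] at hv; simp at hv
    · simp only [H, if_neg h1] at hv
      exact mem_filter.2 ⟨mem_univ _, M.not_isA.1 h1, hv⟩
  have hHst : ∀ u v b, H u = some b → H v = some b → ¬ G.Adj u v := by
    intro u v b hu hv hadj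
    rcases hH u b hu with ⟨h1, rfl⟩ | ⟨h1, h2⟩
    · rcases hH v u hv with ⟨h3, rfl⟩ | ⟨h3, h4⟩
      · exact G.loopless.irrefl _ hadj
      · have h5 := hg.win v u h4
        rw [Model.adj_AH hG h1 h3] at hadj
        omega
    · rcases hH v b hv with ⟨h3, rfl⟩ | ⟨h3, h4⟩
      · have h5 := hg.win u v h2
        have h6 := hadj.symm
        rw [Model.adj_AH hG h3 h1] at h6
        omega
      · have h5 := (Model.adj_HH hG h1 h3).1 hadj
        rcases hg.dis u v b h2 h4 h5.1 with h6 | h6 <;> omega
  refine ⟨fun v => match H v with | some b => F + e b | none => ψ v, ?_, ?_⟩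
  · intro v _
    rcases hv : H v with _ | b
    · simp only [hv]
      have := hψ1 v (hHn v hv)
      omega
    · simp only [hv]
      have := he1 b (hHA v b hv)
      omega
  · intro u _ v _ huv
    rcases hu : H u with _ | b
    · rcases hv : H v with _ | b'
      · simp only [hu, hv]
        exact hψ2 u (hHn u hu) v (hHn v hv) huv
      · simp only [hu, hv]
        have := hψ1 u (hHn u hu)
        omega
    · rcases hv : H v with _ | b'
      · simp only [hu, hv]
        have := hψ1 v (hHn v hv)
        omega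
      · simp only [hu, hv]
        intro h
        have h1 := he2 b (hHA u b hu) b' (hHA v b' hv) (by omega)
        subst h1
        exact hHst u v b hu hv huv

/-- a colouring gives a hosting -/
theorem hosting_of_colOn {G : SimpleGraph V} (hG : M.IsModelOf G) {F : ℕ} {T : Finset V} (hAT : M.A ⊆ T)
    (hcol : ColOn G T (M.A.card + F)) (z : ℕ) (hT : ∀ h, M.IsH h → M.o h < z → h ∈ T) :
    ∃ g : V → Option V, Valid M g z ∧ ∀ p ≤ z, un M g p ≤ F := by
  obtain ⟨φ, h1, h2⟩ := hcol
  let g : V → Option V := fun h =>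
    if M.IsH h ∧ M.o h < z then
      (if hb : ∃ b ∈ M.A, φ b = φ h then some hb.choose else none) else none
  have hg : ∀ h b, g h = some b → M.IsH h ∧ M.o h < z ∧ b ∈ M.A ∧ φ b = φ h := by
    intro h b hb
    by_cases h3 : M.IsH h ∧ M.o h < z
    · by_cases h4 : ∃ b ∈ M.A, φ b = φ h
      · simp only [g, if_pos h3, dif_pos h4] at hb
        have h5 : h4.choose = b := by simpa using hb
        have h6 := h4.choose_spec
        rw [h5] at h6
        exact ⟨h3.1, h3.2, h6.1, h6.2⟩
      · simp only [g, if_pos h3, dif_neg h4] at hb; simp at hb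
    · simp only [g, if_neg h3] at hb; simp at hb
  refine ⟨g, ⟨?_, ?_, ?_, ?_, ?_⟩, ?_⟩
  · intro h b hb; exact (hg h b hb).1
  · intro h b hb; exact Model.mem_A.1 (hg h b hb).2.2.1
  · intro h b hb
    obtain ⟨h3, h4, h5, h6⟩ := hg h b hb
    have h7 : ¬ G.Adj b h := fun hadj => h2 b (hAT h5) h (hT h h3 h4) hadj h6
    rw [Model.adj_AH hG (Model.mem_A.1 h5) h3] at h7
    push Not at h7
    have h8 := M.o_ne_c h b
    have h9 := M.o_ne_c b h
    omega
  · intro h h' b hb hb' hne
    obtain ⟨h3, h4, h5, h6⟩ := hg h b hb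
    obtain ⟨h3', h4', h5', h6'⟩ := hg h' b hb'
    have h7 : ¬ G.Adj h h' := fun hadj => h2 h (hT h h3 h4) h' (hT h' h3' h4') hadj (h6.symm.trans h6')
    rw [Model.adj_HH hG h3 h3'] at h7
    have h8 := M.o_ne_c h h'
    have h9 := M.o_ne_c h' h
    by_contra hc
    push Not at hc
    exact h7 ⟨hne, by omega, by omega⟩
  · intro h b hb; exact (hg h b hb).2.1
  · intro p hp
    -- unhosted jobs and A use different colours
    have hinj : ((M.H p).filter (fun h => g h = none) ∪ M.A).card ≤ M.A.card + F := by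
      have h3 : ((M.H p).filter (fun h => g h = none) ∪ M.A).card ≤ (range (M.A.card + F)).card := by
        apply Finset.card_le_card_of_injOn φ
        · intro v hv
          have hv : v ∈ (M.H p).filter (fun h => g h = none) ∪ M.A := hv
          rw [mem_coe, mem_range]
          rw [mem_union, mem_filter] at hv
          rcases hv with ⟨hv, -⟩ | hv
          · rw [Model.mem_H] at hv
            exact h1 v (hT v hv.1 (by omega))
          · exact h1 v (hAT hv)
        · intro u hu v hv huv
          have hu : u ∈ (M.H p).filter (fun h => g h = none) ∪ M.A := hu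
          have hv : v ∈ (M.H p).filter (fun h => g h = none) ∪ M.A := hv
          rw [mem_union, mem_filter] at hu hv
          by_contra hne
          have key : ∀ u v, u ∈ M.H p → g u = none → v ∈ M.A → φ u = φ v → False := by
            intro u v hu hgu hv huv
            rw [Model.mem_H] at hu
            have h4 : ∃ b ∈ M.A, φ b = φ u := ⟨v, hv, huv.symm⟩
            simp only [g, if_pos (show M.IsH u ∧ M.o u < z from ⟨hu.1, by omega⟩), dif_pos h4] at hgu
            simp at hgu
          rcases hu with ⟨hu, hgu⟩ | hu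
          · rcases hv with ⟨hv, hgv⟩ | hv
            · have h4 : G.Adj u v := Model.adj_of_mem hG hne (Model.mem_of_mem_H hu) (Model.mem_of_mem_H hv)
              rw [Model.mem_H] at hu hv
              exact h2 u (hT u hu.1 (by omega)) v (hT v hv.1 (by omega)) h4 huv
            · exact key u v hu hgu hv huv
          · rcases hv with ⟨hv, hgv⟩ | hv
            · exact key v u hv hgv hu huv.symm
            · exact h2 u (hAT hu) v (hAT hv) ((Model.adj_AA hG (Model.mem_A.1 hu) (Model.mem_A.1 hv)).2 hne) huv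
      rwa [card_range] at h3
    rw [card_union_of_disjoint] at hinj
    · have : un M g p = ((M.H p).filter (fun h => g h = none)).card := rfl
      omega
    · rw [Finset.disjoint_left]
      intro v hv hv'
      rw [mem_filter, Model.mem_H] at hv
      exact (M.not_isA.2 hv.1.1) (Model.mem_A.1 hv')

/-- the certificate conditions at position `z` -/
def Cond1 (M : Model V) (F z : ℕ) : Prop :=
  ∀ S ⊆ M.H z, F < S.card → S.card ≤ F + (NA M S).card

/-- the certificate conditions for the positions `t < z` -/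
def Cond2 (M : Model V) (F z : ℕ) : Prop :=
  ∀ t < z, F < (M.H t).card → F < (M.H z).card → ∀ S ⊆ M.H z, F < S.card →
      (S.filter (fun h => h ∈ M.H t)).card ≤ F → (M.H t).card + S.card ≤ 2 * F + (NW M t S).card

/-- **GVQ**, colouring form: under the clique conditions the family is colourable -/
theorem gvq {G : SimpleGraph V} (hG : M.IsModelOf G) {F : ℕ} (hC1 : ∀ z, Cond1 M F z) (hC2 : ∀ z, Cond2 M F z) :
    ColOn G univ (M.A.card + F) := by
  have key : ∀ z, ∃ g : V → Option V, Valid M g z ∧ ∀ p < z, un M g p ≤ F := by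
    intro z
    induction z with
    | zero =>
      refine ⟨fun _ => none, ⟨?_, ?_, ?_, ?_, ?_⟩, fun p hp => absurd hp (Nat.not_lt_zero _)⟩ <;> simp
    | succ z ih =>
      obtain ⟨f, hf, hun⟩ := ih
      obtain ⟨g, hg, hgun⟩ := step (hC1 z) (hC2 z) hf hun
      exact ⟨g, hg.mono (Nat.le_succ z), fun p hp => hgun p (by omega)⟩
  obtain ⟨g, hg, hgun⟩ := key (univ.sup M.c + 1)
  refine colOn_of_hosting hG hg (fun p => ?_)
  rcases Nat.lt_or_ge p (univ.sup M.c + 1) with h | h
  · exact hgun p h
  · have : (M.H p) = ∅ := by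
      rw [Finset.eq_empty_iff_forall_notMem]
      intro v hv
      rw [Model.mem_H] at hv
      have := Finset.le_sup (f := M.c) (mem_univ v)
      omega
    unfold un
    rw [this]; simp

/-- **GVQ**, certificate form for a vertex `c` whose deletion makes the graph colourable, if `c` is the last job -/
theorem gvq_last {G : SimpleGraph V} (hG : M.IsModelOf G) {F : ℕ} {c : V} (hcH : M.IsH c)
    (hlast : ∀ v, M.IsH v → M.o v ≤ M.o c) (hcol : ColOn G (univ.erase c) (M.A.card + F))
    (hn : ¬ ColOn G univ (M.A.card + F)) :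
    (∃ S ⊆ M.H (M.o c + 1), F < S.card ∧ F + (NA M S).card < S.card) ∨
    (∃ t ≤ M.o c, F < (M.H t).card ∧ ∃ S ⊆ M.H (M.o c + 1), F < S.card ∧
      (S.filter (fun h => h ∈ M.H t)).card ≤ F ∧ 2 * F + (NW M t S).card < (M.H t).card + S.card) := by
  by_contra hcon
  push Not at hcon
  obtain ⟨hc1, hc2⟩ := hcon
  obtain ⟨f, hf, hfun⟩ := hosting_of_colOn (M := M) hG (T := univ.erase c) (by
      intro v hv
      rw [mem_erase]
      refine ⟨?_, mem_univ _⟩
      rintro rfl
      exact (M.not_isA.2 hcH) (Model.mem_A.1 hv)) hcol (M.o c) (by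
      intro h hh hoh
      rw [mem_erase]
      refine ⟨?_, mem_univ _⟩
      rintro rfl
      exact lt_irrefl _ hoh)
  obtain ⟨g, hg, hgun⟩ := step (F := F) (z := M.o c + 1)
    (fun S hS h1 => hc1 S hS h1)
    (fun t ht h1 _ S hS h2 h3 => hc2 t (by omega) h1 S hS h2 h3)
    (hf.mono (Nat.le_succ _)) (fun p hp => hfun p (by omega))
  refine hn (colOn_of_hosting hG hg (fun p => ?_))
  rcases Nat.lt_or_ge p (M.o c + 2) with h | h
  · exact hgun p (by omega)
  · refine le_trans (card_le_card ?_) (hgun (M.o c + 1) le_rfl)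
    intro v hv
    rw [mem_filter, Model.mem_H] at hv ⊢
    have := hlast v hv.1.1
    exact ⟨⟨hv.1.1, by omega, by omega⟩, hv.2⟩

end Pool.Agent.CA92
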